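import Pool.Agent.Helper51.BR.Basic

/-!
# MP_175197_nt, project PS: the classes of primes
-/

set_option autoImplicit false

namespace Pool.Agent.Helper51.PS

open Finset
open Pool.Agent.Helper51.BR (Sp)

/-- all prime factors are `≤ K` -/
def Sm (K s : ℕ) : Prop := ∀ r : ℕ, r.Prime → r ∣ s → r ≤ K

/-- the primes `p > K` with `s * p ∈ A` and `s' * p ∉ A` for the proper divisors `s'` of `s` -/
def Cl (A : Set ℕ) (K s : ℕ) : Set ℕ :=
  {p | p.Prime ∧ K < p ∧ s * p ∈ A ∧ ∀ s', s' ∣ s → s' ≠ s → s' * p ∉ A}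

/-- the members `s * p`, `p > K` prime, `s` composed of primes `≤ K` -/
def Lin (A : Set ℕ) (K : ℕ) : Set ℕ :=
  {n | n ∈ A ∧ ∃ s p, n = s * p ∧ 0 < s ∧ Sm K s ∧ p.Prime ∧ K < p}

/-- the members with a prime factor `> K` which are not in `Lin` -/
def Oth (A : Set ℕ) (K : ℕ) : Set ℕ :=
  {n | n ∈ A ∧ n ∉ Lin A K ∧ ∃ p : ℕ, p.Prime ∧ p ∣ n ∧ K < p}

end Pool.Agent.Helper51.PS
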