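import Pool.Agent.Helper51.BR.Basic
import Pool.Agent.Helper51.PS.Cl

/-!
# MP_175197_nt, project PS: sets of integers such that every prime `> K` divides at most `K` of those
members which are not of the form `s * p ^ j`, `s ≤ K`
-/

set_option autoImplicit false

namespace Pool.Agent.Helper51.PS

open Finset
open Pool.Agent.Helper9.PF
open Pool.Agent.Helper51.BP (Th FR aR)
open Pool.Agent.Helper51.BR (Sp rough fR gR FR_eq fR_mul card_sp_le)

/-- the sets of the project -/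
structure Good (A : Set ℕ) (K : ℕ) : Prop where
  two : 2 ≤ K
  pos : ∀ n ∈ A, 0 < n
  mult : ∀ p : ℕ, p.Prime → K < p → ∀ S : Finset ℕ,
    (∀ n ∈ S, n ∈ A ∧ p ∣ n ∧ ¬ Sp K n) → S.card ≤ K

/-- the number of the divisors composed of primes `≤ K` -/
theorem card_sm_le (K m : ℕ) (hm : m ≠ 0) (S : Finset ℕ) (hS : ∀ n ∈ S, n ∣ m ∧ Sm K n) :
    S.card ≤ (Nat.log 2 m + 1) ^ K := by
  classical
  have h1 : (Fintype.piFinset fun _ : Fin K => range (Nat.log 2 m + 1)).card =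
      (Nat.log 2 m + 1) ^ K := by
    rw [Fintype.card_piFinset, prod_const, card_range, card_univ, Fintype.card_fin]
  rw [← h1]
  refine card_le_card_of_injOn (fun n (i : Fin K) => n.factorization (i.1 + 1)) ?_ ?_
  · intro n hn
    rw [mem_coe, Fintype.mem_piFinset]
    intro i
    rw [mem_range]
    have hn0 : n ≠ 0 := fun h => by
      have := (hS n hn).1
      rw [h, zero_dvd_iff] at this
      exact hm this
    have h2 : n.factorization (i.1 + 1) ≤ Nat.log 2 m := by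
      by_cases hp : (i.1 + 1).Prime
      · refine Nat.le_log_of_pow_le (by norm_num) ?_
        calc 2 ^ n.factorization (i.1 + 1) ≤ (i.1 + 1) ^ n.factorization (i.1 + 1) :=
              Nat.pow_le_pow_left hp.two_le _
          _ ≤ n := Nat.le_of_dvd (Nat.pos_of_ne_zero hn0) (Nat.ordProj_dvd n _)
          _ ≤ m := Nat.le_of_dvd (Nat.pos_of_ne_zero hm) (hS n hn).1
      · rw [Nat.factorization_eq_zero_of_not_prime _ hp]
        exact Nat.zero_le _
    show n.factorization (i.1 + 1) < Nat.log 2 m + 1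
    omega
  · intro n hn n' hn' h
    rw [mem_coe] at hn hn'
    have hne : ∀ n ∈ S, n ≠ 0 := fun n hn h => by
      have := (hS n hn).1
      rw [h, zero_dvd_iff] at this
      exact hm this
    refine Nat.eq_of_factorization_eq (hne n hn) (hne n' hn') fun p => ?_
    by_cases hp : p.Prime
    · by_cases hpK : p ≤ K
      · have h2 := congrFun h ⟨p - 1, by have := hp.pos; omega⟩
        have h3 : p - 1 + 1 = p := by have := hp.pos; omega
        simp only [h3] at h2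
        exact h2
      · rw [Nat.factorization_eq_zero_of_not_dvd (fun h => hpK ((hS n hn).2 p hp h)),
          Nat.factorization_eq_zero_of_not_dvd (fun h => hpK ((hS n' hn').2 p hp h))]
    · rw [Nat.factorization_eq_zero_of_not_prime _ hp, Nat.factorization_eq_zero_of_not_prime _ hp]

open Classical in
/-- the number of the members of `A` dividing `m` -/
theorem card_le {A : Set ℕ} {K : ℕ} (hA : Good A K) (m : ℕ)
    (S : Finset ℕ) (hS : ∀ n ∈ S, n ∈ A ∧ n ∣ m) (hm : m ≠ 0) :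
    S.card ≤ (3 * K) * (Nat.log 2 m + 1) ^ K := by
  have hK1 : 1 ≤ K := by
    have := hA.two
    omega
  have h0 : ((S.filter fun n => ¬ Sp K n).filter fun n => ¬ Sm K n).card ≤ K * Nat.log 2 m := by
    obtain ⟨T, hT⟩ : ∃ T, T = (S.filter fun n => ¬ Sp K n).filter fun n => ¬ Sm K n := ⟨_, rfl⟩
    rw [← hT]
    have hTS : ∀ n ∈ T, n ∈ A ∧ n ∣ m ∧ ¬ Sp K n ∧ ¬ Sm K n := by
      intro n hn
      rw [hT, mem_filter, mem_filter] at hn
      obtain ⟨h1, h2⟩ := hS n hn.1.1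
      exact ⟨h1, h2, hn.1.2, hn.2⟩
    have h1 : T ⊆ (m.primeFactors.filter fun p => K < p).biUnion
        fun p => T.filter fun n => p ∣ n := by
      intro n hn
      obtain ⟨h2, h3, h4, h5⟩ := hTS n hn
      rw [mem_biUnion]
      unfold Sm at h5
      push Not at h5
      obtain ⟨p, hp, hpn, hpK⟩ := h5
      exact ⟨p, mem_filter.2 ⟨Nat.mem_primeFactors.2 ⟨hp, hpn.trans h3, hm⟩, hpK⟩,
        mem_filter.2 ⟨hn, hpn⟩⟩
    have h2 : T.card ≤ ∑ p ∈ m.primeFactors.filter (fun p => K < p), K := by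
      refine (card_le_card h1).trans (card_biUnion_le.trans (sum_le_sum fun p hp => ?_))
      rw [mem_filter] at hp
      refine hA.mult p (Nat.prime_of_mem_primeFactors hp.1) hp.2 _ fun n hn => ?_
      rw [mem_filter] at hn
      exact ⟨(hTS n hn.1).1, hn.2, (hTS n hn.1).2.2.1⟩
    rw [sum_const, smul_eq_mul, mul_comm] at h2
    refine h2.trans (Nat.mul_le_mul_left K ((card_filter_le _ _).trans ?_))
    refine Nat.le_log_of_pow_le (by norm_num) ?_
    calc 2 ^ m.primeFactors.card = ∏ p ∈ m.primeFactors, 2 := by rw [prod_const]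
      _ ≤ ∏ p ∈ m.primeFactors, p := prod_le_prod (fun _ _ => by norm_num)
          (fun p hp => (Nat.prime_of_mem_primeFactors hp).two_le)
      _ ≤ m := Nat.le_of_dvd (Nat.pos_of_ne_zero hm) (Nat.prod_primeFactors_dvd m)
  have h1 : (S.filter fun n => Sp K n).card ≤ K * Nat.log 2 m := by
    refine card_sp_le K m hm _ fun n hn => ?_
    rw [mem_filter] at hn
    exact ⟨hn.2, (hS n hn.1).2⟩
  have h1' : ((S.filter fun n => ¬ Sp K n).filter fun n => Sm K n).card ≤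
      (Nat.log 2 m + 1) ^ K := by
    refine card_sm_le K m hm _ fun n hn => ?_
    rw [mem_filter, mem_filter] at hn
    exact ⟨(hS n hn.1.1).2, hn.2⟩
  have h2 := Finset.card_filter_add_card_filter_not (s := S) (fun n => Sp K n)
  have h2' := Finset.card_filter_add_card_filter_not (s := S.filter fun n => ¬ Sp K n)
    (fun n => Sm K n)
  obtain ⟨x, hx⟩ : ∃ x, x = Nat.log 2 m := ⟨_, rfl⟩
  rw [← hx] at h0 h1 h1' ⊢
  have h3 : x ≤ (x + 1) ^ K := by
    calc x ≤ (x + 1) ^ 1 := by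
          rw [pow_one]
          exact Nat.le_succ x
      _ ≤ (x + 1) ^ K := Nat.pow_le_pow_right (by omega) hK1
  have h4 : K * x ≤ K * (x + 1) ^ K := Nat.mul_le_mul_left K h3
  have h5 : (x + 1) ^ K ≤ K * (x + 1) ^ K := Nat.le_mul_of_pos_left _ hK1
  have h6 : 3 * K * (x + 1) ^ K = K * (x + 1) ^ K + K * (x + 1) ^ K + K * (x + 1) ^ K := by ring
  rw [h6]
  have h7 : (S.filter fun n => ¬ Sp K n).card ≤ (x + 1) ^ K + K * x := by
    rw [← h2']
    exact Nat.add_le_add h1' h0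
  rw [← h2]
  calc _ ≤ K * x + ((x + 1) ^ K + K * x) := Nat.add_le_add h1 h7
    _ ≤ K * (x + 1) ^ K + (K * (x + 1) ^ K + K * (x + 1) ^ K) :=
        Nat.add_le_add h4 (Nat.add_le_add h5 h4)
    _ = _ := by ring

theorem abs_FR_le {A : Set ℕ} {K : ℕ} (hA : Good A K) (ε : ℕ → ℤ) (hε : ∀ p, |ε p| ≤ 1) (y : ℕ)
    (m : ℕ) : |FR A ε y m| ≤ (((3 * K) * (Nat.log 2 m + 1) ^ K : ℕ) : ℤ) := by
  classical
  unfold FR
  refine (abs_sum_le_sum_abs _ _).trans ?_
  refine (sum_le_sum (fun p _ => hε p)).trans ?_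
  rw [sum_const, nsmul_eq_mul, mul_one]
  norm_cast
  rcases Nat.eq_zero_or_pos m with rfl | hm
  · simp
  · refine card_le hA m _ (fun n hn => ?_) hm.ne'
    rw [mem_filter, Nat.mem_divisors] at hn
    exact ⟨hn.2.1, hn.1.1⟩

theorem abs_aR_le {A : Set ℕ} {K : ℕ} (hA : Good A K) (ε θ : ℕ → ℤ) (hε : ∀ p, |ε p| ≤ 1)
    (hθ : Th θ) (y : ℕ) (m : ℕ) :
    |aR A ε θ y m| ≤ (((3 * K) * (Nat.log 2 m + 1) ^ K : ℕ) : ℤ) := by
  unfold aR
  rw [abs_mul, hθ.one, one_mul]
  exact abs_FR_le hA ε hε y m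

private lemma log_le (M h : ℕ) (hM : 1 ≤ M) :
    Nat.log 2 (M + 1 + h) + 1 ≤ (Nat.log 2 M + 1) * (h + 3) := by
  have h1 : M + 1 + h < 2 ^ (Nat.log 2 M + 1 + (h + 2)) := by
    have h2 : M < 2 ^ (Nat.log 2 M + 1) := Nat.lt_pow_succ_log_self (by norm_num) M
    have h3 : h + 2 < 2 ^ (h + 2) := Nat.lt_two_pow_self
    rw [pow_add]
    calc M + 1 + h ≤ M * (h + 2) := by nlinarith
      _ < 2 ^ (Nat.log 2 M + 1) * 2 ^ (h + 2) := Nat.mul_lt_mul'' h2 h3
  have h2 : Nat.log 2 (M + 1 + h) < Nat.log 2 M + 1 + (h + 2) := Nat.log_lt_of_lt_pow (by omega) h1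
  nlinarith [Nat.zero_le (Nat.log 2 M * h), Nat.zero_le (Nat.log 2 M)]

/-- the bound for `bet` from a bound by powers of the logarithm -/
theorem bet_pow (k : ℕ) : ∃ C : ℝ, 0 ≤ C ∧ ∀ lam : ℝ, 3 / 2 ≤ lam → ∀ (a : ℕ → ℤ) (c : ℝ), 0 ≤ c →
    (∀ t, |(a t : ℝ)| ≤ c * ((Nat.log 2 t : ℝ) + 1) ^ k) → ∀ M : ℕ, 1 ≤ M →
    bet lam a M ≤ c * C * ((Nat.log 2 M : ℝ) + 1) ^ k := by
  obtain ⟨g, hg⟩ : ∃ g : ℕ → ℝ, ∀ h, g h = ((h : ℝ) + 3) ^ k * (2 / 3) ^ (h + 1) := ⟨_, fun _ => rfl⟩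
  have hgs : Summable g := by
    have h1 := summable_pow_mul_geometric_of_norm_lt_one (R := ℝ) k (r := 2 / 3) (by
      rw [Real.norm_eq_abs, abs_of_nonneg (by norm_num)]
      norm_num)
    have h2 := ((summable_nat_add_iff 3).2 h1).mul_left (9 / 4 : ℝ)
    refine h2.congr fun h => ?_
    rw [hg]
    push_cast
    have h3 : (2 / 3 : ℝ) ^ (h + 3) = (4 / 9) * (2 / 3) ^ (h + 1) := by
      rw [show h + 3 = (h + 1) + 2 by ring, pow_add]
      ring
    rw [h3]
    ring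
  have hg0 : ∀ h, 0 ≤ g h := fun h => by rw [hg]; positivity
  have hgt : 0 ≤ ∑' h, g h := tsum_nonneg hg0
  refine ⟨∑' h, g h + 3, by linarith, ?_⟩
  intro lam hlam a c hc ha M hM
  have hlam0 : (0 : ℝ) < lam := by linarith
  have hr0 : 0 ≤ lam⁻¹ := by positivity
  have hr1 : lam⁻¹ ≤ 2 / 3 := by
    rw [inv_le_comm₀ hlam0 (by norm_num)]
    linarith
  obtain ⟨x, hx⟩ : ∃ x : ℝ, x = ((Nat.log 2 M : ℝ) + 1) ^ k := ⟨_, rfl⟩
  have hx0 : 0 ≤ x := by rw [hx]; positivity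
  rw [← hx]
  have h1 : ∀ h : ℕ, |(a (M + 1 + h) : ℝ)| * lam⁻¹ ^ (h + 1) ≤ c * x * g h := by
    intro h
    have h2 := ha (M + 1 + h)
    have h3 : ((Nat.log 2 (M + 1 + h) : ℝ) + 1) ≤ ((Nat.log 2 M : ℝ) + 1) * ((h : ℝ) + 3) := by
      exact_mod_cast log_le M h hM
    have h4 : ((Nat.log 2 (M + 1 + h) : ℝ) + 1) ^ k ≤ x * ((h : ℝ) + 3) ^ k := by
      rw [hx, ← mul_pow]
      exact pow_le_pow_left₀ (by positivity) h3 k
    have h5 : lam⁻¹ ^ (h + 1) ≤ (2 / 3) ^ (h + 1) := pow_le_pow_left₀ hr0 hr1 _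
    rw [hg]
    calc |(a (M + 1 + h) : ℝ)| * lam⁻¹ ^ (h + 1) ≤
          (c * (x * ((h : ℝ) + 3) ^ k)) * (2 / 3) ^ (h + 1) :=
          mul_le_mul (h2.trans (mul_le_mul_of_nonneg_left h4 hc)) h5 (by positivity) (by positivity)
      _ = c * x * (((h : ℝ) + 3) ^ k * (2 / 3) ^ (h + 1)) := by ring
  have h2 : (∑' h : ℕ, |(a (M + 1 + h) : ℝ)| * lam⁻¹ ^ (h + 1)) ≤ c * x * ∑' h, g h := by
    rw [← tsum_mul_left]
    refine Summable.tsum_le_tsum h1 ?_ (hgs.mul_left _)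
    exact Summable.of_nonneg_of_le (fun h => by positivity) h1 (hgs.mul_left _)
  have h3 : ∑ j ∈ range M, |(a (M - j) : ℝ)| * lam⁻¹ ^ j ≤ c * x * 3 := by
    have h4 : ∀ j ∈ range M, |(a (M - j) : ℝ)| * lam⁻¹ ^ j ≤ c * x * (2 / 3) ^ j := by
      intro j _
      have h5 := ha (M - j)
      have h6 : ((Nat.log 2 (M - j) : ℝ) + 1) ^ k ≤ x := by
        rw [hx]
        refine pow_le_pow_left₀ (by positivity) ?_ k
        have : Nat.log 2 (M - j) ≤ Nat.log 2 M := Nat.log_mono_right (Nat.sub_le _ _)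
        have h7 : (Nat.log 2 (M - j) : ℝ) ≤ Nat.log 2 M := by exact_mod_cast this
        linarith
      exact mul_le_mul (h5.trans (mul_le_mul_of_nonneg_left h6 hc)) (pow_le_pow_left₀ hr0 hr1 _)
        (by positivity) (by positivity)
    refine (sum_le_sum h4).trans ?_
    rw [← mul_sum]
    refine mul_le_mul_of_nonneg_left ?_ (by positivity)
    have h5 := (summable_geometric_of_lt_one (r := (2 / 3 : ℝ)) (by norm_num) (by norm_num))
    have h6 := h5.sum_le_tsum (range M) (fun j _ => by positivity)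
    rw [tsum_geometric_of_lt_one (by norm_num) (by norm_num)] at h6
    refine h6.trans (by norm_num)
  unfold bet
  calc _ ≤ c * x * ∑' h, g h + c * x * 3 := add_le_add h2 h3
    _ = c * (∑' h, g h + 3) * x := by ring

end Pool.Agent.Helper51.PS
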