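import Pool.Agent.Helper51.PS.Basic
import Pool.Agent.Helper51.BR.Design
import Pool.Agent.Helper51.BQ.Moment
import Pool.Agent.Helper51.BP.Design

/-!
# MP_175197_nt, project PS: the design

At the places of `I` the prescribed members are `s₀ * q i j`; there `N + i ≡ s₀` modulo `s₀ * (2 * K!)`.
-/

set_option autoImplicit false

namespace Pool.Agent.Helper51.PS

open Finset
open Pool.Agent.Helper9.PF
open Pool.Agent.Helper51.BP (not_dvd_fac)
open Pool.Agent.Helper51.BR (Sp rough fR sp_form not_sp_of_two)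
open Pool.Agent.Helper51.BQ (exists_good')

private theorem crt (Q a : ℕ) (q : ℕ × ℕ → ℕ) (S : Finset (ℕ × ℕ))
    (hp : ∀ x ∈ S, (q x).Prime) (hQ : ∀ x ∈ S, ¬ q x ∣ Q)
    (hinj : ∀ x ∈ S, ∀ x' ∈ S, q x = q x' → x = x') :
    ∃ a', a' ≡ a [MOD Q] ∧ ∀ x ∈ S, a' + x.1 ≡ q x [MOD q x ^ 2] := by
  classical
  induction S using Finset.induction_on with
  | empty => exact ⟨a, Nat.ModEq.refl _, by simp⟩
  | insert x S hx ih =>
    obtain ⟨a₁, h1, h2⟩ := ih (fun z hz => hp z (mem_insert_of_mem hz))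
      (fun z hz => hQ z (mem_insert_of_mem hz))
      (fun z hz z' hz' => hinj z (mem_insert_of_mem hz) z' (mem_insert_of_mem hz'))
    have hpx : (q x).Prime := hp x (mem_insert_self _ _)
    have hco : Nat.Coprime (Q * ∏ z ∈ S, q z ^ 2) (q x ^ 2) := by
      apply Nat.Coprime.mul_left
      · exact (((Nat.Prime.coprime_iff_not_dvd hpx).mpr (hQ x (mem_insert_self _ _))).symm).pow_right 2
      · apply Nat.Coprime.prod_left
        intro z hz
        apply Nat.Coprime.pow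
        rw [Nat.coprime_primes (hp z (mem_insert_of_mem hz)) hpx]
        intro h
        have := hinj z (mem_insert_of_mem hz) x (mem_insert_self _ _) h
        exact hx (this ▸ hz)
    obtain ⟨a₂, h3, h4⟩ := Nat.chineseRemainder hco a₁ ((q x ^ 2 - 1) * x.1 + q x)
    refine ⟨a₂, (h3.of_mul_right _).trans h1, ?_⟩
    intro z hz
    rcases mem_insert.mp hz with rfl | hz
    · have h5 : (q z ^ 2 - 1) * z.1 + q z + z.1 = q z ^ 2 * z.1 + q z := by
        obtain ⟨k, hk⟩ := Nat.exists_eq_succ_of_ne_zero (pow_ne_zero 2 hpx.ne_zero)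
        rw [hk]
        simp only [Nat.succ_eq_add_one, Nat.add_sub_cancel]
        ring
      have h6 := (Nat.ModEq.add_right z.1 h4)
      rw [h5] at h6
      refine h6.trans ?_
      have h7 : q z ^ 2 * z.1 + q z ≡ 0 + q z [MOD q z ^ 2] :=
        Nat.ModEq.add_right _ ((Nat.modEq_zero_iff_dvd).mpr (dvd_mul_right _ _))
      rwa [zero_add] at h7
    · have h5 : a₂ ≡ a₁ [MOD q z ^ 2] :=
        h3.of_dvd (dvd_mul_of_dvd_right (Finset.dvd_prod_of_mem (fun z => q z ^ 2) hz) _)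
      exact (h5.add_right z.1).trans (h2 z hz)

/-- no member of `A` is `s * m` with `s` composed of primes `≤ K` and `m` a product of at least two different primes of `P` -/
def Indep (A : Set ℕ) (K : ℕ) (P : Finset ℕ) : Prop :=
  ∀ s m : ℕ, s * m ∈ A → Sm K s → Squarefree m → (∀ p : ℕ, p.Prime → p ∣ m → p ∈ P) →
    m = 1 ∨ m.Prime

/-- the decomposition into the part composed of primes `≤ K` and the rest -/
theorem split_all (K : ℕ) (n : ℕ) (hn : 0 < n) :
    ∃ s w, n = s * w ∧ 0 < s ∧ Sm K s ∧ ∀ p : ℕ, p.Prime → p ∣ w → K < p := by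
  induction n using Nat.strong_induction_on with
  | _ n ih =>
    by_cases h : ∃ r : ℕ, r.Prime ∧ r ∣ n ∧ r ≤ K
    · obtain ⟨r, hr, ⟨m, hm⟩, hrK⟩ := h
      have hm0 : 0 < m := Nat.pos_of_ne_zero fun h => by
        rw [hm, h, mul_zero] at hn
        exact lt_irrefl _ hn
      have hlt : m < n := by
        rw [hm]
        have := hr.two_le
        nlinarith
      obtain ⟨s, w, h1, h2, h3, h4⟩ := ih m hlt hm0
      refine ⟨r * s, w, by rw [hm, h1, mul_assoc], Nat.mul_pos hr.pos h2, ?_, h4⟩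
      intro p hp hpd
      rcases (Nat.Prime.dvd_mul hp).1 hpd with h | h
      · rw [(Nat.prime_dvd_prime_iff_eq hp hr).1 h]
        exact hrK
      · exact h3 p hp h
    · push Not at h
      refine ⟨1, n, (one_mul n).symm, one_pos, ?_, fun p hp hpn => h p hp hpn⟩
      intro p hp hpd
      have := Nat.le_of_dvd one_pos hpd
      have := hp.two_le
      omega

/-- the part composed of primes `≤ K` of `N ≡ s₀` modulo `s₀ * (2 * K!)` is `s₀` -/
theorem smooth_part {K M s₀ : ℕ} (hs0 : 0 < s₀) (h : M ≡ s₀ [MOD s₀ * (2 * K.factorial)]) :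
    ∃ t, M = s₀ * t ∧ Odd t ∧ ∀ s, Sm K s → s ∣ M → s ∣ s₀ := by
  have h1 : s₀ ∣ M := ((h.of_mul_right _).dvd_iff dvd_rfl).2 dvd_rfl
  obtain ⟨t, rfl⟩ := h1
  have h2 : s₀ * t ≡ s₀ * 1 [MOD s₀ * (2 * K.factorial)] := by
    rw [mul_one]
    exact h
  have h3 := Nat.ModEq.mul_left_cancel' hs0.ne' h2
  refine ⟨t, rfl, ?_, ?_⟩
  · have h4 : t ≡ 1 [MOD 2] := h3.of_mul_right _
    have h5 : t % 2 = 1 % 2 := h4
    rw [Nat.odd_iff]
    omega
  · intro s hs hsd
    have hco : Nat.Coprime s t := by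
      rw [Nat.coprime_iff_gcd_eq_one]
      by_contra hne
      obtain ⟨r, hr, hrd⟩ := Nat.exists_prime_and_dvd hne
      have h4 := hs r hr (hrd.trans (Nat.gcd_dvd_left _ _))
      have h5 : r ∣ t := hrd.trans (Nat.gcd_dvd_right _ _)
      have h6 : r ∣ 2 * K.factorial := (Nat.dvd_factorial hr.pos h4).trans (dvd_mul_left _ _)
      have h7 : r ∣ 1 := ((h3.of_dvd h6).dvd_iff dvd_rfl).1 h5
      have := Nat.le_of_dvd one_pos h7
      have := hr.two_le
      omega
    exact hco.dvd_of_dvd_mul_right hsd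

theorem design (A : Set ℕ) {K : ℕ} (hA : Good A K) (ε : ℕ → ℤ) (hε : ∀ p, |ε p| ≤ 1)
    (y Q V Y B₀ a u Z s₀ J : ℕ) (e₀ : ℤ) (hyK : K ≤ y) (P : Finset ℕ) (hPA : Indep A K P)
    (I : Finset ℕ) (q : ℕ → ℕ → ℕ) (hI : ∀ i ∈ I, i ≤ V) (hQ0 : 0 < Q)
    (hQ : ∀ p : ℕ, p.Prime → p ∣ Q → p ≤ y) (hs0pos : 0 < s₀) (hs₀ : Sm K s₀)
    (hQK : s₀ * (2 * K.factorial) ∣ Q)
    (hIs : ∀ i ∈ I, a + i ≡ s₀ [MOD s₀ * (2 * K.factorial)])
    (hq : ∀ i ∈ I, ∀ j < u, q i j ∈ P ∧ (q i j).Prime ∧ s₀ * q i j ∈ A ∧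
      (∀ s, s ∣ s₀ → s ≠ s₀ → s * q i j ∉ A) ∧ y < q i j ∧ V < q i j ∧
      q i j ≤ Z ∧ ε (s₀ * q i j) = e₀)
    (hinj : ∀ i ∈ I, ∀ i' ∈ I, ∀ j < u, ∀ j' < u, q i j = q i' j' → i = i' ∧ j = j')
    (hZ : 1 ≤ Z) (hsize : 16 * (Q * Z ^ (2 * (I.card * u))) ≤ Y) (hV : V ≤ Y)
    (hB : 8 * ((V : ℝ) + 1) * (1 + Real.log Y) < 2 ^ (B₀ + 1))
    (hQy : ∀ p : ℕ, p.Prime → p ≤ y → p ∣ Q) (hy2 : 2 ≤ y) (hJ : 4 ≤ J)
    (hyJ : 16 * (V + 1) ≤ y ^ (J - 2)) (hVY : 32 * (V + 1) ≤ Nat.sqrt Y)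
    (m : ℕ → ℕ) (hm : ∀ i, m i ≤ u) :
    ∃ N, N ≡ a [MOD Q] ∧ Y ≤ N ∧ N + V ≤ Y ^ 2 ∧
      ∀ i ≤ V, |fR A ε K y (N + i) - (if i ∈ I then e₀ * (m i : ℤ) else 0)| ≤
        (((K + K * J) * B₀ : ℕ) : ℤ) := by
  classical
  set S : Finset (ℕ × ℕ) := (I ×ˢ range u).filter (fun x => x.2 < m x.1) with hS
  have hSm : ∀ x, x ∈ S ↔ x.1 ∈ I ∧ x.2 < m x.1 := by
    intro x
    rw [hS, mem_filter, mem_product, mem_range]
    constructor
    · rintro ⟨⟨h1, -⟩, h2⟩
      exact ⟨h1, h2⟩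
    · rintro ⟨h1, h2⟩
      exact ⟨⟨h1, lt_of_lt_of_le h2 (hm _)⟩, h2⟩
  have hqS : ∀ x ∈ S, q x.1 x.2 ∈ P ∧ (q x.1 x.2).Prime ∧ s₀ * q x.1 x.2 ∈ A ∧
      (∀ s, s ∣ s₀ → s ≠ s₀ → s * q x.1 x.2 ∉ A) ∧ y < q x.1 x.2 ∧
      V < q x.1 x.2 ∧ q x.1 x.2 ≤ Z ∧ ε (s₀ * q x.1 x.2) = e₀ := by
    intro x hx
    obtain ⟨h1, h2⟩ := (hSm x).mp hx
    exact hq _ h1 _ (h2.trans_le (hm _))
  set Pr : ℕ := ∏ x ∈ S, q x.1 x.2 ^ 2 with hPr
  set Q' : ℕ := Q * Pr with hQ'
  have hP0 : 0 < Pr := Finset.prod_pos fun x hx => pow_pos (hqS x hx).2.1.pos 2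
  have hQ'0 : 0 < Q' := Nat.mul_pos hQ0 hP0
  have hPle : Pr ≤ Z ^ (2 * (I.card * u)) := by
    have h1 : Pr ≤ (Z ^ 2) ^ S.card := Finset.prod_le_pow_card _ _ _ fun x hx =>
      Nat.pow_le_pow_left (hqS x hx).2.2.2.2.2.2.1 2
    rw [← pow_mul] at h1
    refine h1.trans (Nat.pow_le_pow_right hZ (Nat.mul_le_mul_left 2 ?_))
    refine (Finset.card_filter_le _ _).trans ?_
    rw [card_product, card_range]
  have hQ'Y : 16 * Q' ≤ Y := by
    refine le_trans ?_ hsize
    exact Nat.mul_le_mul_left _ (Nat.mul_le_mul_left _ hPle)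
  obtain ⟨a₁, ha1, ha2⟩ := crt Q a (fun x => q x.1 x.2) S (fun x hx => (hqS x hx).2.1)
    (fun x hx hd => by
      have h1 := hQ _ (hqS x hx).2.1 hd
      have h2 := (hqS x hx).2.2.2.2.1
      omega)
    (fun x hx x' hx' h => by
      obtain ⟨h1, h2⟩ := (hSm x).mp hx
      obtain ⟨h3, h4⟩ := (hSm x').mp hx'
      have := hinj _ h1 _ h3 _ (h2.trans_le (hm _)) _ (h4.trans_le (hm _)) h
      exact Prod.ext this.1 this.2)
  have ha' : a₁ % Q' < Q' := Nat.mod_lt _ hQ'0
  have hmod : a₁ % Q' ≡ a₁ [MOD Q'] := Nat.mod_modEq _ _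
  have hY1 : 1 ≤ Y := by omega
  have hsz : a₁ % Q' + V + Q' * (2 * Y) ≤ Y ^ 2 := by
    have h1 : 16 * Y ≤ Y * Y := Nat.mul_le_mul_right _ (by omega)
    have h2 : 16 * Q' * Y ≤ Y * Y := Nat.mul_le_mul_right _ hQ'Y
    nlinarith
  obtain ⟨n, hn, hgood⟩ := exists_good' Q' Y (a₁ % Q') V B₀ y J hQ'0 hY1 hsz hB
    (fun p hp hpy => (hQy p hp hpy).mul_right Pr) hy2 hJ hyJ hVY
  rw [mem_Ico] at hn
  set N := a₁ % Q' + Q' * n with hN
  have hNmod : N ≡ a₁ [MOD Q'] := by
    have : N ≡ a₁ % Q' + 0 [MOD Q'] := by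
      rw [hN]
      exact Nat.ModEq.add_left _ ((Nat.modEq_zero_iff_dvd).mpr (dvd_mul_right _ _))
    rw [add_zero] at this
    exact this.trans hmod
  have hQY : Y ≤ N := by
    have : 1 * n ≤ Q' * n := Nat.mul_le_mul_right _ hQ'0
    omega
  have hNV : N + V ≤ Y ^ 2 := by
    have : Q' * n ≤ Q' * (2 * Y) := Nat.mul_le_mul_left _ hn.2.le
    omega
  have hNa : N ≡ a [MOD Q] := (hNmod.of_mul_right _).trans ha1
  refine ⟨N, hNa, hQY, hNV, ?_⟩
  intro i hi
  -- the design primes divide exactly once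
  have hexact : ∀ x ∈ S, N + x.1 ≡ q x.1 x.2 [MOD q x.1 x.2 ^ 2] := by
    intro x hx
    have h1 : N ≡ a₁ [MOD q x.1 x.2 ^ 2] :=
      hNmod.of_dvd (dvd_mul_of_dvd_right
        (Finset.dvd_prod_of_mem (fun x : ℕ × ℕ => q x.1 x.2 ^ 2) hx) _)
    exact (h1.add_right x.1).trans (ha2 x hx)
  have hdvd : ∀ x ∈ S, q x.1 x.2 ∣ N + x.1 := by
    intro x hx
    have h1 := (hexact x hx).of_dvd (dvd_pow_self _ two_ne_zero)
    exact (h1.dvd_iff dvd_rfl).mpr dvd_rfl
  have hnsq : ∀ x ∈ S, ¬ q x.1 x.2 ^ 2 ∣ N + x.1 := by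
    intro x hx h
    have h1 := ((hexact x hx).dvd_iff dvd_rfl).mp h
    have h2 := (hqS x hx).2.1
    have h3 := Nat.le_of_dvd h2.pos h1
    have h4 := h2.two_le
    nlinarith
  have hN0 : N + i ≠ 0 := by omega
  -- the `K`-smooth part at the places of `I`
  have hsmooth : i ∈ I → ∃ t, N + i = s₀ * t ∧ Odd t ∧ ∀ s, Sm K s → s ∣ N + i → s ∣ s₀ := by
    intro hiI
    exact smooth_part hs0pos (((hNa.of_dvd hQK).add_right i).trans (hIs i hiI))
  -- the primes of `Q'` dividing `N + i` and larger than `y`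
  have hprime : ∀ p : ℕ, p.Prime → p ∣ Q' → p ∣ N + i → y < p →
      i ∈ I ∧ ∃ j < m i, p = q i j := by
    intro p hp hpQ hpN hyp
    have hpP : p ∣ Pr := by
      rcases (Nat.Prime.dvd_mul hp).mp hpQ with h | h
      · have := hQ p hp h
        omega
      · exact h
    obtain ⟨x, hx, hpx⟩ := (Prime.dvd_finsetProd_iff hp.prime _).mp hpP
    have hpe : p = q x.1 x.2 :=
      (Nat.prime_dvd_prime_iff_eq hp (hqS x hx).2.1).mp (hp.dvd_of_dvd_pow hpx)
    obtain ⟨hx1, hx2⟩ := (hSm x).mp hx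
    have hV1 := hI _ hx1
    have hV2 := (hqS x hx).2.2.2.2.2.1
    have hd := hdvd x hx
    rw [← hpe] at hd hV2
    have hix : i = x.1 := by
      have h1 : i ≡ x.1 [MOD p] := by
        have h2 : N + i ≡ N + x.1 [MOD p] :=
          ((Nat.modEq_zero_iff_dvd).mpr hpN).trans ((Nat.modEq_zero_iff_dvd).mpr hd).symm
        exact Nat.ModEq.add_left_cancel' N h2
      exact Nat.ModEq.eq_of_lt_of_lt h1 (by omega) (by omega)
    rw [hix]
    exact ⟨hx1, x.2, hx2, hpe⟩
  -- the members whose prime factors `> K` all divide `Q'`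
  have hset : ((N + i).divisors.filter (fun n => (n ∈ A ∧ y < n ∧ Odd ((N + i) / n)) ∧
      rough K y n)).filter (fun n => ∀ p : ℕ, p.Prime → p ∣ n → K < p → p ∣ Q') =
      if i ∈ I then (range (m i)).image (fun j => s₀ * q i j) else ∅ := by
    ext n
    rw [mem_filter, mem_filter, Nat.mem_divisors]
    constructor
    · rintro ⟨⟨⟨hnN, -⟩, ⟨hnA, hyn, -⟩, hro⟩, hall⟩
      by_cases hpp : Sp K n
      · obtain ⟨p, hp, hpn, hyp⟩ := hro.2
        have hKp : K < p := lt_of_le_of_lt hyK hyp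
        obtain ⟨s, k, hs0, hsK, hk, hsk⟩ := sp_form (hA.pos n hnA) hpp hp hKp hpn
        obtain ⟨hiI, j, hj, hpj⟩ := hprime p hp (hall p hp hpn hKp) (hpn.trans hnN) hyp
        have hx : (i, j) ∈ S := (hSm _).mpr ⟨hiI, hj⟩
        have hk1 : k = 1 := by
          by_contra hcon
          apply hnsq _ hx
          show q i j ^ 2 ∣ N + i
          rw [← hpj]
          refine ((pow_dvd_pow p (by omega : 2 ≤ k)).trans ?_).trans hnN
          rw [hsk]
          exact dvd_mul_left _ _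
        have hnp : n = s * p := by rw [hsk, hk1, pow_one]
        have hsN : s ∣ N + i := ((hnp ▸ dvd_mul_right s p : s ∣ n)).trans hnN
        obtain ⟨t, -, -, hts⟩ := hsmooth hiI
        have hss : s ∣ s₀ := hts s (fun r hr hrs => (Nat.le_of_dvd hs0 hrs).trans hsK) hsN
        have hs1 : s = s₀ := by
          by_contra hcon
          apply (hqS _ hx).2.2.2.1 s hss hcon
          show s * q i j ∈ A
          rw [← hpj, ← hnp]
          exact hnA
        rw [if_pos hiI, mem_image]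
        refine ⟨j, mem_range.mpr hj, ?_⟩
        show s₀ * q i j = n
        rw [← hs1, ← hpj, hnp]
      obtain ⟨s, w, h1, hspos, h2, h3⟩ := split_all K n (hA.pos n hnA)
      have hwn : w ∣ n := h1 ▸ dvd_mul_left w s
      have hw1 : w ≠ 1 := by
        rintro rfl
        obtain ⟨r, hr, hrn, hyr⟩ := hro.2
        rw [h1, mul_one] at hrn
        have := h2 r hr hrn
        omega
      have hfac : ∀ p : ℕ, p.Prime → p ∣ w → i ∈ I ∧ ∃ j < m i, p = q i j := by
        intro p hp hpw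
        have hKp := h3 p hp hpw
        have hpn := hpw.trans hwn
        exact hprime p hp (hall p hp hpn hKp) (hpn.trans hnN) (hro.1 p hp hpn hKp)
      obtain ⟨p₀, hp₀, hp₀n⟩ := Nat.exists_prime_and_dvd hw1
      obtain ⟨hiI, -⟩ := hfac p₀ hp₀ hp₀n
      have hsq : Squarefree w := by
        rw [Nat.squarefree_iff_prime_squarefree]
        intro p hp hpp
        obtain ⟨-, j, hj, hpj⟩ := hfac p hp ((dvd_mul_right p p).trans hpp)
        have hx : (i, j) ∈ S := (hSm _).mpr ⟨hiI, hj⟩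
        apply hnsq _ hx
        show q i j ^ 2 ∣ N + i
        rw [← hpj, sq]
        exact (hpp.trans hwn).trans hnN
      have hP : ∀ p : ℕ, p.Prime → p ∣ w → p ∈ P := by
        intro p hp hpn
        obtain ⟨-, j, hj, hpj⟩ := hfac p hp hpn
        have hx : (i, j) ∈ S := (hSm _).mpr ⟨hiI, hj⟩
        rw [hpj]
        exact (hqS _ hx).1
      have hswA : s * w ∈ A := h1 ▸ hnA
      rcases hPA s w hswA h2 hsq hP with h | h
      · exact absurd h hw1
      · obtain ⟨-, j, hj, hpj⟩ := hfac w h dvd_rfl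
        have hx : (i, j) ∈ S := (hSm _).mpr ⟨hiI, hj⟩
        have hsN : s ∣ N + i := ((h1 ▸ dvd_mul_right s w : s ∣ n)).trans hnN
        obtain ⟨t, -, -, hts⟩ := hsmooth hiI
        have hss : s ∣ s₀ := hts s h2 hsN
        have hs : s = s₀ := by
          by_contra hne
          apply (hqS _ hx).2.2.2.1 s hss hne
          show s * q i j ∈ A
          rw [← hpj]
          exact hswA
        rw [if_pos hiI, mem_image]
        refine ⟨j, mem_range.mpr hj, ?_⟩
        show s₀ * q i j = n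
        rw [h1, hs, hpj]
    · intro hp
      split_ifs at hp with hiI
      · obtain ⟨j, hj, rfl⟩ := mem_image.mp hp
        rw [mem_range] at hj
        have hx : (i, j) ∈ S := (hSm _).mpr ⟨hiI, hj⟩
        have h1 := hqS _ hx
        have h2 : q i j ∣ N + i := hdvd _ hx
        have hqp : (q i j).Prime := h1.2.1
        have hKq : K < q i j := lt_of_le_of_lt hyK h1.2.2.2.2.1
        have hqs : ¬ q i j ∣ s₀ := fun h => by
          have := hs₀ _ hqp h
          omega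
        obtain ⟨t, htN, htodd, -⟩ := hsmooth hiI
        have hco : Nat.Coprime s₀ (q i j) := ((Nat.Prime.coprime_iff_not_dvd hqp).mpr hqs).symm
        have hsN : s₀ ∣ N + i := ⟨t, htN⟩
        have hnN : s₀ * q i j ∣ N + i := hco.mul_dvd_of_dvd_of_dvd hsN h2
        have hodd : Odd ((N + i) / (s₀ * q i j)) := by
          have h3 : Odd ((N + i) / s₀) := by
            rw [htN, Nat.mul_div_cancel_left _ hs0pos]
            exact htodd
          rw [← Nat.div_div_eq_div_mul]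
          refine Odd.of_dvd_nat h3 (Nat.div_dvd_of_dvd ?_)
          obtain ⟨c, hc⟩ := hnN
          have h4 : (N + i) / s₀ = q i j * c := by
            rw [hc, mul_assoc, Nat.mul_div_cancel_left _ hs0pos]
          rw [h4]
          exact dvd_mul_right _ _
        have hpr : ∀ p : ℕ, p.Prime → p ∣ s₀ * q i j → K < p → p = q i j := by
          intro p hp hpn hKp
          rcases (Nat.Prime.dvd_mul hp).mp hpn with h | h
          · have := hs₀ p hp h
            omega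
          · exact (Nat.prime_dvd_prime_iff_eq hp hqp).mp h
        have hyn : y < s₀ * q i j :=
          lt_of_lt_of_le h1.2.2.2.2.1 (Nat.le_mul_of_pos_left _ hs0pos)
        refine ⟨⟨⟨hnN, hN0⟩, ⟨h1.2.2.1, hyn, hodd⟩, ?_, ?_⟩, ?_⟩
        · intro p hp hpn hKp
          rw [hpr p hp hpn hKp]
          exact h1.2.2.2.2.1
        · exact ⟨q i j, hqp, dvd_mul_left _ _, h1.2.2.2.2.1⟩
        · intro p hp hpn hKp
          rw [hpr p hp hpn hKp]
          refine dvd_mul_of_dvd_right ?_ _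
          exact (dvd_pow_self _ two_ne_zero).trans
            (Finset.dvd_prod_of_mem (fun x : ℕ × ℕ => q x.1 x.2 ^ 2) hx)
      · simp at hp
  have hsum : ∑ n ∈ ((N + i).divisors.filter (fun n => (n ∈ A ∧ y < n ∧ Odd ((N + i) / n)) ∧
      rough K y n)).filter (fun n => ∀ p : ℕ, p.Prime → p ∣ n → K < p → p ∣ Q'), ε n =
      if i ∈ I then e₀ * (m i : ℤ) else 0 := by
    rw [hset]
    split_ifs with hiI
    · rw [Finset.sum_image]
      · rw [Finset.sum_congr rfl (fun j hj =>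
          (hq i hiI j ((mem_range.mp hj).trans_le (hm i))).2.2.2.2.2.2.2)]
        rw [Finset.sum_const, card_range, nsmul_eq_mul, mul_comm]
      · intro j hj j' hj' h
        have hj1 := mem_range.mp (Finset.mem_coe.mp hj)
        have hj2 := mem_range.mp (Finset.mem_coe.mp hj')
        have h' : q i j = q i j' := Nat.eq_of_mul_eq_mul_left hs0pos h
        exact (hinj i hiI i hiI j (hj1.trans_le (hm i)) j' (hj2.trans_le (hm i)) h').2
    · simp
  have hff : fR A ε K y (N + i) = (if i ∈ I then e₀ * (m i : ℤ) else 0) +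
      ∑ n ∈ ((N + i).divisors.filter (fun n => (n ∈ A ∧ y < n ∧ Odd ((N + i) / n)) ∧
      rough K y n)).filter (fun n => ¬ ∀ p : ℕ, p.Prime → p ∣ n → K < p → p ∣ Q'), ε n := by
    rw [← hsum, Finset.sum_filter_add_sum_filter_not]
    rfl
  rw [hff, add_sub_cancel_left]
  refine (Finset.abs_sum_le_sum_abs _ _).trans ?_
  refine (Finset.sum_le_card_nsmul _ _ 1 (fun p _ => hε p)).trans ?_
  rw [nsmul_eq_mul, mul_one]
  have h1 := (hgood i hi).1
  have hpow := (hgood i hi).2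
  set R := ((N + i).divisors.filter (fun n => (n ∈ A ∧ y < n ∧ Odd ((N + i) / n)) ∧
      rough K y n)).filter (fun n => ¬ ∀ p : ℕ, p.Prime → p ∣ n → K < p → p ∣ Q') with hR
  have hcov : R ⊆ ((N + i).primeFactors.filter (fun p => ¬ p ∣ Q')).biUnion fun p =>
      if K < p then (R.filter fun n => p ∣ n ∧ ¬ Sp K n) ∪
        ((Icc 1 K ×ˢ range J).image fun x => x.1 * p ^ x.2) else ∅ := by
    intro n hn
    have hn' := hn
    rw [hR, mem_filter, mem_filter, Nat.mem_divisors] at hn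
    obtain ⟨⟨⟨hnN, -⟩, -⟩, h2⟩ := hn
    push Not at h2
    obtain ⟨p, hp, hpn, hKp, hpQ⟩ := h2
    rw [mem_biUnion]
    refine ⟨p, mem_filter.mpr ⟨Nat.mem_primeFactors.mpr ⟨hp, hpn.trans hnN, hN0⟩, hpQ⟩, ?_⟩
    rw [if_pos hKp]
    by_cases hpp : Sp K n
    · have hn0 : 0 < n := Nat.pos_of_dvd_of_pos hnN (Nat.pos_of_ne_zero hN0)
      obtain ⟨t, k, ht0, htK, hk, htk⟩ := sp_form hn0 hpp hp hKp hpn
      refine mem_union_right _ (mem_image.mpr ⟨(t, k), mem_product.mpr ⟨mem_Icc.mpr ⟨?_, htK⟩,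
        mem_range.mpr ?_⟩, htk.symm⟩)
      · exact ht0
      · by_contra hcon
        push Not at hcon
        apply hpow p hp hpQ
        refine ((pow_dvd_pow p hcon).trans ?_).trans hnN
        rw [htk]
        exact dvd_mul_left _ _
    · exact mem_union_left _ (mem_filter.mpr ⟨hn', hpn, hpp⟩)
  have h2 : R.card ≤ ∑ _p ∈ (N + i).primeFactors.filter (fun p => ¬ p ∣ Q'), (K + K * J) := by
    refine (card_le_card hcov).trans (card_biUnion_le.trans (sum_le_sum fun p hp => ?_))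
    rw [mem_filter, Nat.mem_primeFactors] at hp
    split_ifs with hKp
    · refine (card_union_le _ _).trans (Nat.add_le_add ?_ ?_)
      · refine hA.mult p hp.1.1 hKp _ fun n hn => ?_
        rw [mem_filter, hR, mem_filter, mem_filter] at hn
        exact ⟨hn.1.1.2.1.1, hn.2.1, hn.2.2⟩
      · refine card_image_le.trans ?_
        rw [card_product, Nat.card_Icc, Nat.add_sub_cancel, card_range]
    · exact Nat.zero_le _
  rw [sum_const, smul_eq_mul] at h2
  have h3 : R.card ≤ (K + K * J) * B₀ := by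
    rw [mul_comm (K + K * J)]
    exact h2.trans (Nat.mul_le_mul_right _ h1)
  exact_mod_cast h3

/-- a large part of the set of primes is independent -/
theorem exists_indep (A : Set ℕ) {K : ℕ} (hA : Good A K) (s₀ : ℕ)
    (P : Finset ℕ) (hP : ∀ p ∈ P, p.Prime ∧ K < p) (_hPA : ∀ p ∈ P, s₀ * p ∈ A) :
    ∃ P₁ ⊆ P, Indep A K P₁ ∧ P.card ≤ (K + 1) * P₁.card := by
  classical
  -- a maximal independent subset
  obtain ⟨P₁, h1, h2⟩ := Finset.exists_max_image (P.powerset.filter fun S => Indep A K S)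
    (fun S => S.card) ⟨∅, by
      rw [mem_filter, mem_powerset]
      refine ⟨empty_subset _, fun s m _ _ _ h => ?_⟩
      left
      by_contra hn
      obtain ⟨p, hp, hpn⟩ := Nat.exists_prime_and_dvd hn
      exact absurd (h p hp hpn) (notMem_empty p)⟩
  rw [mem_filter, mem_powerset] at h1
  refine ⟨P₁, h1.1, h1.2, ?_⟩
  -- every other prime gives a member of `A`
  have h3 : ∀ p ∈ P \ P₁, ∃ s m, s * m ∈ A ∧ Sm K s ∧ Squarefree m ∧
      (∀ r : ℕ, r.Prime → r ∣ m → r ∈ insert p P₁) ∧ m ≠ 1 ∧ ¬ m.Prime := by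
    intro p hp
    rw [mem_sdiff] at hp
    by_contra hcon
    push Not at hcon
    have h4 : Indep A K (insert p P₁) := by
      intro s m hn hs hsq h
      by_contra hc
      push Not at hc
      exact hc.2 (hcon s m hn hs hsq h hc.1)
    have h5 : insert p P₁ ∈ P.powerset.filter fun S => Indep A K S := by
      rw [mem_filter, mem_powerset]
      exact ⟨insert_subset hp.1 h1.1, h4⟩
    have h6 := h2 _ h5
    rw [card_insert_of_notMem hp.2] at h6
    omega
  choose! s m hnA hns hnsq hnP hn1 hnp using h3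
  -- `p ∣ m p`, and `m p` has a prime factor in `P₁`
  have h4 : ∀ p ∈ P \ P₁, p ∣ m p := by
    intro p hp
    by_contra hcon
    have h5 : ∀ r : ℕ, r.Prime → r ∣ m p → r ∈ P₁ := by
      intro r hr hrn
      rcases mem_insert.mp (hnP p hp r hr hrn) with h | h
      · rw [h] at hrn
        exact absurd hrn hcon
      · exact h
    rcases h1.2 (s p) (m p) (hnA p hp) (hns p hp) (hnsq p hp) h5 with h | h
    · exact hn1 p hp h
    · exact hnp p hp h
  have h5 : ∀ p ∈ P \ P₁, ∃ r ∈ P₁, r ∣ m p := by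
    intro p hp
    have hpp : p.Prime := (hP p (mem_sdiff.mp hp).1).1
    obtain ⟨c, hc⟩ := h4 p hp
    have hc1 : c ≠ 1 := by
      rintro rfl
      rw [mul_one] at hc
      apply hnp p hp
      rw [hc]
      exact hpp
    obtain ⟨r, hr, hrc⟩ := Nat.exists_prime_and_dvd hc1
    have hrn : r ∣ m p := by
      rw [hc]
      exact dvd_mul_of_dvd_right hrc _
    rcases mem_insert.mp (hnP p hp r hr hrn) with h | h
    · exfalso
      rw [h] at hrc
      have h6 : p * p ∣ m p := by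
        rw [hc]
        exact mul_dvd_mul_left p hrc
      exact hpp.one_lt.ne' (Nat.isUnit_iff.mp (hnsq p hp p h6))
    · exact ⟨r, h, hrn⟩
  choose! r hr1 hr2 using h5
  obtain ⟨n, hn⟩ : ∃ n : ℕ → ℕ, ∀ p, n p = s p * m p := ⟨_, fun _ => rfl⟩
  -- `n` is injective
  have hinj : ∀ p ∈ P \ P₁, ∀ p' ∈ P \ P₁, n p = n p' → p = p' := by
    intro p hp p' hp' h
    have hpp := hP p (mem_sdiff.mp hp).1
    have h6 : p ∣ n p := by
      rw [hn]
      exact dvd_mul_of_dvd_right (h4 p hp) _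
    rw [h, hn] at h6
    have h6' : p ∣ m p' := by
      rcases (Nat.Prime.dvd_mul hpp.1).mp h6 with h7 | h7
      · have h8 := hns p' hp' p hpp.1 h7
        omega
      · exact h7
    rcases mem_insert.mp (hnP p' hp' p hpp.1 h6') with h7 | h7
    · exact h7
    · exact absurd h7 (mem_sdiff.mp hp).2
  have h6 : (P \ P₁).card ≤ ∑ t ∈ P₁, ((P \ P₁).filter fun p => r p = t).card := by
    rw [← Finset.card_eq_sum_card_fiberwise (f := r) (t := P₁)]
    intro p hp
    exact hr1 p hp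
  have h7 : ∀ t ∈ P₁, ((P \ P₁).filter fun p => r p = t).card ≤ K := by
    intro t ht
    have htP := hP t (h1.1 ht)
    have h8 := hA.mult t htP.1 htP.2 (((P \ P₁).filter fun p => r p = t).image n) (by
      intro x hx
      obtain ⟨p, hp, rfl⟩ := mem_image.mp hx
      rw [mem_filter] at hp
      have hpp := hP p (mem_sdiff.mp hp.1).1
      have e1 : t ∣ n p := by
        rw [hn, ← hp.2]
        exact dvd_mul_of_dvd_right (hr2 p hp.1) _
      have e2 : p ∣ n p := by
        rw [hn]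
        exact dvd_mul_of_dvd_right (h4 p hp.1) _
      have e3 : t ≠ p := fun h => (mem_sdiff.mp hp.1).2 (h ▸ ht)
      have e4 : n p ∈ A := by
        rw [hn]
        exact hnA p hp.1
      refine ⟨?_, e1, not_sp_of_two (hA.pos _ e4) htP.1 hpp.1 htP.2 hpp.2 e1 e2 e3⟩
      rw [hn]
      exact hnA p hp.1)
    rw [card_image_of_injOn] at h8
    · exact h8
    · intro p hp p' hp' h
      rw [mem_coe, mem_filter] at hp hp'
      exact hinj p hp.1 p' hp'.1 h
  have h8 : ∑ t ∈ P₁, ((P \ P₁).filter fun p => r p = t).card ≤ ∑ _t ∈ P₁, K :=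
    sum_le_sum h7
  rw [sum_const, smul_eq_mul] at h8
  have h9 := card_sdiff_add_card_eq_card h1.1
  have h10 : (K + 1) * P₁.card = P₁.card * K + P₁.card := by ring
  omega

end Pool.Agent.Helper51.PS
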