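import Pool.Agent.Helper51.PS.Count
import Pool.Agent.Helper51.PS.Design
import Pool.Agent.Helper51.PS.Code
import Pool.Agent.Helper51.PS.Params
import Pool.Agent.Helper9.PF.ExistsA
import Pool.Agent.Helper9.PF.Primes

/-!
# MP_175197_nt, project PS: the core theorem
-/

set_option autoImplicit false

namespace Pool.Agent.Helper51.PS

open Finset Filter
open Pool.Agent.Helper9.PF
open Pool.Agent.Helper51.BR (fR JJ NB uP bP JM RM s1 s2 smooth_dvd)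
open Pool.Agent.Helper51.BP (Th FR aR not_dvd_fac)

private lemma qq_pos (G y : ℕ) : 0 < QQ G y := by
  unfold QQ
  exact Finset.prod_pos fun p hp => ((Finset.mem_filter.1 hp).2).pos

private lemma qq_prime {G y p : ℕ} (hp : p.Prime) (h : p ∣ QQ G y) : G < p ∧ p ≤ y := by
  unfold QQ at h
  obtain ⟨r, hr, hpr⟩ := (hp.prime.dvd_finsetProd_iff _).1 h
  rw [Finset.mem_filter, Finset.mem_Ioc] at hr
  rw [(Nat.prime_dvd_prime_iff_eq hp hr.2).1 hpr]
  exact hr.1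

private lemma qq_odd {G y : ℕ} (hG : 2 ≤ G) : Odd (QQ G y) := by
  rw [← Nat.coprime_two_left]
  unfold QQ
  refine Nat.Coprime.prod_right fun p hp => ?_
  rw [Finset.mem_filter, Finset.mem_Ioc] at hp
  rw [Nat.coprime_primes Nat.prime_two hp.2]
  omega

private lemma qq_cop {G y K : ℕ} (hG : 2 ≤ G) (hK : K ≤ G) :
    Nat.Coprime (QQ G y) (4 * K.factorial) := by
  unfold QQ
  refine Nat.Coprime.prod_left fun p hp => ?_
  rw [Finset.mem_filter, Finset.mem_Ioc] at hp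
  rw [Nat.Prime.coprime_iff_not_dvd hp.2, Nat.Prime.dvd_mul hp.2]
  rintro (h | h)
  · have h2 : p ∣ 2 ^ 2 := h
    have h3 := Nat.le_of_dvd (by norm_num) (hp.2.dvd_of_dvd_pow h2)
    omega
  · exact not_dvd_fac hp.2 (by omega) h

private lemma bad_congr {Q D G E W a a₀ : ℕ} (h : a ≡ a₀ [MOD Q]) :
    Bad Q D G E W a = Bad Q D G E W a₀ := by
  classical
  have h1 : ∀ i, (a + i).gcd Q = (a₀ + i).gcd Q := fun i => (h.add_right i).gcd_eq
  have h2 : ∀ i c, (a + i + c).gcd Q = (a₀ + i + c).gcd Q :=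
    fun i c => ((h.add_right i).add_right c).gcd_eq
  unfold Bad
  refine Finset.filter_congr fun i _ => ?_
  unfold IsBad
  rw [h1 i]
  simp only [h2]

private lemma block {T b : ℕ} (hT : 0 < T) (hb : b < T) (E w : ℕ) :
    w ≤ ((Ioc E (E + T * w)).filter (fun i => i % T = b)).card := by
  induction w with
  | zero => exact Nat.zero_le _
  | succ w ih =>
    obtain ⟨i, hi1, hi2, hi3⟩ : ∃ i, E + T * w < i ∧ i ≤ E + T * (w + 1) ∧ i % T = b := by
      obtain ⟨X, hX⟩ : ∃ X, X = E + T * w := ⟨_, rfl⟩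
      have hX2 : E + T * (w + 1) = X + T := by rw [hX]; ring
      rw [hX2, ← hX]
      by_cases h : b ≤ X
      · refine ⟨T * ((X - b) / T + 1) + b, ?_, ?_, ?_⟩
        · have h1 := Nat.lt_mul_div_succ (X - b) hT
          omega
        · have h1 := Nat.mul_div_le (X - b) T
          have h2 : T * ((X - b) / T + 1) = T * ((X - b) / T) + T := by ring
          omega
        · rw [Nat.mul_add_mod, Nat.mod_eq_of_lt hb]
      · exact ⟨b, by omega, by omega, Nat.mod_eq_of_lt hb⟩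
    have hsub : insert i ((Ioc E (E + T * w)).filter (fun i => i % T = b)) ⊆
        (Ioc E (E + T * (w + 1))).filter (fun i => i % T = b) := by
      intro x hx
      rw [Finset.mem_insert] at hx
      rw [Finset.mem_filter, Finset.mem_Ioc]
      rcases hx with rfl | hx
      · exact ⟨⟨by omega, hi2⟩, hi3⟩
      · rw [Finset.mem_filter, Finset.mem_Ioc] at hx
        have : T * (w + 1) = T * w + T := by ring
        exact ⟨⟨hx.1.1, by omega⟩, hx.2⟩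
    have hni : i ∉ (Ioc E (E + T * w)).filter (fun i => i % T = b) := by
      rw [Finset.mem_filter, Finset.mem_Ioc]
      omega
    have := Finset.card_le_card hsub
    rw [Finset.card_insert_of_notMem hni] at this
    omega

private lemma pick (T : ℕ) (hT : 0 < T) (B : Finset ℕ) :
    ∃ b < T, T * (B.filter (fun i => i % T = b)).card ≤ B.card := by
  by_contra hcon
  push Not at hcon
  have h1 : B.card = ∑ b ∈ range T, (B.filter (fun i => i % T = b)).card := by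
    refine Finset.card_eq_sum_card_fiberwise fun i _ => ?_
    rw [Finset.mem_coe, mem_range]
    exact Nat.mod_lt _ hT
  have h2 : ∑ _b ∈ range T, B.card < ∑ b ∈ range T, T * (B.filter (fun i => i % T = b)).card := by
    refine sum_lt_sum_of_nonempty ⟨0, mem_range.2 hT⟩ fun b hb => ?_
    exact hcon b (mem_range.1 hb)
  rw [← mul_sum, ← h1, sum_const, card_range, smul_eq_mul] at h2
  exact lt_irrefl _ h2

private lemma hpow_le {L : ℕ} (hL : 1 ≤ L) : 2 ^ L ≤ YY L ^ 2 := by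
  have h1 : L ≤ 2 ^ (2 ^ (L - 1)) := by
    have h2 : L - 1 < 2 ^ (L - 1) := Nat.lt_two_pow_self
    have h3 : 2 ^ (L - 1) < 2 ^ (2 ^ (L - 1)) := Nat.lt_two_pow_self
    omega
  have h2 : 2 ^ L ≤ YY L := by
    unfold YY
    exact Nat.pow_le_pow_right (by norm_num) h1
  exact h2.trans (Nat.le_self_pow (by norm_num) _)

open Classical in
/-- The core, for one class of primes and one `l`. -/
theorem core_l (A : Set ℕ) {K : ℕ} (hA : Good A K) (θ ε : ℕ → ℤ)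
    (hθ : Th θ) (hε1 : ∀ p, |ε p| ≤ 1) (Cb : ℝ)
    (hCb : ∀ lam : ℝ, 3 / 2 ≤ lam → ∀ (a : ℕ → ℤ) (c : ℝ), 0 ≤ c →
      (∀ t, |(a t : ℝ)| ≤ c * ((Nat.log 2 t : ℝ) + 1) ^ K) → ∀ M : ℕ, 1 ≤ M →
      bet lam a M ≤ c * Cb * ((Nat.log 2 M : ℝ) + 1) ^ K) (lam : ℝ) (hlam : 3 / 2 ≤ lam) (K₀ : ℕ)
    (hD : ∀ y : ℕ, 2 ≤ y → Nonempty (Dyn lam (aR A ε θ y) ((K₀ : ℝ) ^ (y ^ 2))))
    (s₀ : ℕ) (hs0 : 0 < s₀) (hs₀ : Sm K s₀)
    (e₀ : ℤ) (he₀ : |e₀| = 1) (l T : ℕ) (hKl : 2 * K ≤ l) (hl10 : 10 ≤ l)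
    (hCl : 3 * (K : ℝ) * Cb ≤ l) (hT : T = 4 * K.factorial * s₀)
    (P : Finset ℕ) (hP : P.card = 2 ^ (2 ^ (l - 2)))
    (hP2 : ∀ q ∈ P, (q.Prime ∧ K < q ∧ s₀ * q ∈ A ∧ (∀ s, s ∣ s₀ → s ≠ s₀ → s * q ∉ A) ∧
      ε (s₀ * q) = e₀) ∧ 2 ^ (2 ^ (l - 2)) < q ∧ q ≤ 2 ^ (2 ^ (2 ^ (l - 2))))
    (h1 : 2 ≤ GG (T * l) ∧ GG (T * l) ≤ yy (T * l) ∧
      64 * (GG (T * l) : ℝ) ^ 2 ≤ Real.log (yy (T * l)))
    (h2 : 2 ≤ DD (T * l) ∧
      64 * (Real.log (yy (T * l)) * (1 + Real.log (yy (T * l)))) ≤ Real.log (DD (T * l)))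
    (h3 : 64 * (GG (T * l) * DD (T * l)) ≤ WW (T * l))
    (h4 : 8 * ((VV (T * l) : ℝ) + 1) * (1 + Real.log (YY l)) < 2 ^ (2 ^ l + 1))
    (h5 : ∀ lam : ℝ, 3 / 2 ≤ lam → 4 * (bP T l : ℝ) + 2 * (30 * (l : ℝ)) < lam ^ GG (T * l))
    (h6' : ∀ lam : ℝ, 3 / 2 ≤ lam → (RS K l : ℝ) ≤ (30 * (l : ℝ)) * lam ^ (K * 2 ^ l))
    (h7 : l * (WW (T * l) * uP T l) ≤ 2 ^ (2 ^ (l - 2)) ∧ VV (T * l) ≤ 2 ^ (2 ^ (l - 2)) ∧
      yy (T * l) ≤ 2 ^ (2 ^ (l - 2)))
    (h8 : 16 * (RM T (T * l) * QQ (GG (T * l)) (yy (T * l)) * ZZ l ^ (2 * (WW (T * l) * uP T l))) ≤ YY l)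
    (h9 : VV (T * l) ≤ YY l) (h9' : 32 * (VV (T * l) + 1) ≤ Nat.sqrt (YY l))
    (h10 : ∀ bI : ℕ, 16 * T * bI ≤ WW (T * l) →
      (2 * bP T l + 1) ^ bI * (2 * NB T l + 1) ^ (WW (T * l) / 16) *
      ((2 * (K₀ ^ (yy (T * l) ^ 2) * (RS K l + 1)) + 1) ^ 2) ^ DD (T * l) *
      (VV (T * l) + 2) ^ (l * yy (T * l) * DD (T * l)) <
        (2 ^ (T * l)) ^ (WW (T * l) / T)) :
    False := by
  have hK2 := hA.two
  have hTpos : 0 < T := by
    rw [hT]
    exact Nat.mul_pos (Nat.mul_pos (by norm_num) (Nat.factorial_pos _)) hs0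
  have hTd : s₀ * (2 * K.factorial) ∣ T := ⟨2, by rw [hT]; ring⟩
  have hT4 : 4 ≤ T := by
    rw [hT]
    have h1 : 0 < K.factorial * s₀ := Nat.mul_pos (Nat.factorial_pos K) hs0
    have h2 : 4 * K.factorial * s₀ = 4 * (K.factorial * s₀) := by ring
    omega
  obtain ⟨L, hL⟩ : ∃ L, L = T * l := ⟨_, rfl⟩
  rw [← hL] at h1 h2 h3 h4 h5 h7 h8 h9 h9' h10
  obtain ⟨hG2, hGy, hy⟩ := h1
  obtain ⟨hD2, hDlog⟩ := h2
  have hl1 : 1 ≤ l := by omega
  have hL1 : 1 ≤ L := by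
    rw [hL]
    exact Nat.mul_pos hTpos hl1
  have hlL : l ≤ L := by
    rw [hL]
    exact Nat.le_mul_of_pos_left _ hTpos
  have hTL : T ≤ L := by
    rw [hL]
    exact Nat.le_mul_of_pos_right _ hl1
  have hKG : K ≤ GG L := by
    unfold GG
    omega
  have hKyy : K ≤ yy L := by
    have e1 : L ≤ eta L := by
      unfold eta
      nlinarith
    have e2 : eta L < yy L := Nat.lt_two_pow_self
    omega
  have hy2 : 2 ≤ yy L := hG2.trans hGy
  obtain ⟨dyn⟩ := hD (yy L) hy2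
  obtain ⟨a₀, ha₀⟩ := exists_a (GG L) (yy L) (DD L) (WW L) (EE L) hG2 hGy hy hD2 hDlog h3
  obtain ⟨b, hbT, hbc⟩ := pick T hTpos (Bad (QQ (GG L) (yy L)) (DD L) (GG L) (EE L) (WW L) a₀)
  have hcop : Nat.Coprime (QQ (GG L) (yy L)) T := by
    rw [hT]
    refine Nat.Coprime.mul_right (qq_cop hG2 hKG) ?_
    rw [Nat.coprime_iff_gcd_eq_one]
    by_contra hne
    obtain ⟨r, hr, hrd⟩ := Nat.exists_prime_and_dvd hne
    have e1 := (qq_prime hr (hrd.trans (Nat.gcd_dvd_left _ _))).1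
    have e2 := hs₀ r hr (hrd.trans (Nat.gcd_dvd_right _ _))
    omega
  have hQpos := qq_pos (GG L) (yy L)
  obtain ⟨a, haQ, haT, ha1, ha2⟩ : ∃ a, 0 < a ∧ a < 2 * (QQ (GG L) (yy L) * T) ∧
      a ≡ a₀ [MOD QQ (GG L) (yy L)] ∧ a ≡ s₀ + (T - b) [MOD T] := by
    obtain ⟨c, hc1, hc2⟩ : ∃ c, c ≡ a₀ [MOD QQ (GG L) (yy L)] ∧ c ≡ s₀ + (T - b) [MOD T] :=
      ⟨_, (Nat.chineseRemainder hcop a₀ (s₀ + (T - b))).2⟩
    have hpos : 0 < QQ (GG L) (yy L) * T := Nat.mul_pos hQpos hTpos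
    have hm : c % (QQ (GG L) (yy L) * T) < QQ (GG L) (yy L) * T := Nat.mod_lt _ hpos
    have hcm : c % (QQ (GG L) (yy L) * T) + QQ (GG L) (yy L) * T ≡ c
        [MOD QQ (GG L) (yy L) * T] := by
      have h1 : c % (QQ (GG L) (yy L) * T) + QQ (GG L) (yy L) * T ≡ c + 0
          [MOD QQ (GG L) (yy L) * T] :=
        (Nat.mod_modEq _ _).add ((Nat.modEq_zero_iff_dvd).mpr dvd_rfl)
      rwa [add_zero] at h1
    refine ⟨c % (QQ (GG L) (yy L) * T) + QQ (GG L) (yy L) * T, by omega, by omega, ?_, ?_⟩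
    · exact (hcm.of_mul_right _).trans hc1
    · exact (hcm.of_mul_left _).trans hc2
  have hbad := bad_congr (D := DD L) (G := GG L) (E := EE L) (W := WW L) ha1
  rw [← hbad] at ha₀ hbc
  obtain ⟨I, hIdef⟩ : ∃ I, I = (Ioc (EE L) (EE L + WW L)).filter (fun i => i % T = b) :=
    ⟨_, rfl⟩
  have hVdef : VV L = 2 * EE L + WW L := rfl
  have hIcard : WW L / T ≤ I.card := by
    have e1 := block hTpos hbT (EE L) (WW L / T)
    have e2 : T * (WW L / T) ≤ WW L := Nat.mul_div_le _ _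
    refine e1.trans (Finset.card_le_card ?_)
    rw [hIdef]
    intro i hi
    rw [Finset.mem_filter, Finset.mem_Ioc] at hi ⊢
    exact ⟨⟨hi.1.1, by omega⟩, hi.2⟩
  have hIle : I.card ≤ WW L := by
    rw [hIdef]
    refine (Finset.card_filter_le _ _).trans ?_
    rw [Nat.card_Ioc]
    omega
  have hIV : ∀ i ∈ I, i ≤ VV L := by
    intro i hi
    rw [hIdef, Finset.mem_filter, Finset.mem_Ioc] at hi
    omega
  have hIs : ∀ i ∈ I, a + i ≡ s₀ [MOD s₀ * (2 * K.factorial)] := by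
    intro i hi
    rw [hIdef, Finset.mem_filter] at hi
    have e1 : i ≡ b [MOD T] := by
      have : i % T = b % T := by rw [hi.2, Nat.mod_eq_of_lt hbT]
      exact this
    have e2 : a + i ≡ (s₀ + (T - b)) + b [MOD T] := ha2.add e1
    have e3 : (s₀ + (T - b)) + b = s₀ + T := by omega
    rw [e3] at e2
    have e4 : s₀ + T ≡ s₀ + 0 [MOD T] :=
      Nat.ModEq.add_left _ ((Nat.modEq_zero_iff_dvd).mpr dvd_rfl)
    exact (e2.trans e4).of_dvd hTd
  obtain ⟨P₁, hP₁, hPind, hPcard⟩ := exists_indep A hA s₀ P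
    (fun p hp => ⟨(hP2 p hp).1.1, (hP2 p hp).1.2.1⟩) (fun p hp => (hP2 p hp).1.2.2.1)
  obtain ⟨q, hq1, hq2⟩ := exists_q P₁ I (uP T l) (by
    have e1 : (K + 1) * (I.card * uP T l) ≤ (K + 1) * P₁.card := by
      calc (K + 1) * (I.card * uP T l) ≤ l * (WW L * uP T l) :=
            Nat.mul_le_mul (by omega) (Nat.mul_le_mul_right _ hIle)
        _ ≤ 2 ^ (2 ^ (l - 2)) := h7.1
        _ = P.card := hP.symm
        _ ≤ (K + 1) * P₁.card := hPcard
    exact Nat.le_of_mul_le_mul_left e1 (by omega))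
  have hQpr : ∀ p : ℕ, p.Prime → p ∣ QQ (GG L) (yy L) → K < p ∧ p ≤ yy L := fun p hp h =>
    ⟨lt_of_le_of_lt hKG (qq_prime hp h).1, (qq_prime hp h).2⟩
  have hPrim : ∀ p : ℕ, p.Prime → p ≤ yy L → p ∣ primorial (yy L) := by
    intro p hp hpy
    unfold primorial
    exact Finset.dvd_prod_of_mem _ (Finset.mem_filter.2 ⟨Finset.mem_range.2 (by omega), hp⟩)
  have hPrim2 : ∀ p : ℕ, p.Prime → p ∣ primorial (yy L) → p ≤ yy L := by
    intro p hp h
    unfold primorial at h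
    obtain ⟨r, hr, hpr⟩ := (hp.prime.dvd_finsetProd_iff _).1 h
    rw [Finset.mem_filter, Finset.mem_range] at hr
    rw [(Nat.prime_dvd_prime_iff_eq hp hr.2).1 hpr]
    omega
  have hJM : 1 ≤ JM T L := by
    unfold JM
    omega
  have hRMpos : 0 < RM T L := Nat.mul_pos hTpos (pow_pos (primorial_pos _) _)
  have hRMP : primorial (yy L) ^ JM T L ∣ RM T L * QQ (GG L) (yy L) :=
    (dvd_mul_left _ T).trans (dvd_mul_right _ _)
  have hTRM : T ∣ RM T L := dvd_mul_right _ _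
  have hQy : ∀ p : ℕ, p.Prime → p ≤ yy L → p ∣ RM T L * QQ (GG L) (yy L) := by
    intro p hp hpy
    exact ((hPrim p hp hpy).trans (dvd_pow_self _ (by omega))).trans hRMP
  have hQ4 : ∀ p : ℕ, p.Prime → p ∣ RM T L * QQ (GG L) (yy L) → p ≤ yy L := by
    intro p hp h
    rcases (hp.dvd_mul).1 h with h | h
    · unfold RM at h
      rcases (hp.dvd_mul).1 h with h | h
      swap
      · exact hPrim2 p hp (hp.dvd_of_dvd_pow h)
      rw [hT] at h
      rcases (hp.dvd_mul).1 h with h | h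
      · rcases (hp.dvd_mul).1 h with h | h
        · have : p ∣ 2 ^ 2 := h
          have h2 := hp.dvd_of_dvd_pow this
          exact (Nat.le_of_dvd (by norm_num) h2).trans hy2
        · exact ((hp.dvd_factorial).1 h).trans hKyy
      · exact (hs₀ p hp h).trans hKyy
    · exact (hQpr p hp h).2
  have hZ1 : 1 ≤ ZZ l := Nat.one_le_two_pow
  have hsize : 16 * (RM T L * QQ (GG L) (yy L) * ZZ l ^ (2 * (I.card * uP T l))) ≤ YY l := by
    refine le_trans ?_ h8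
    refine Nat.mul_le_mul_left _ (Nat.mul_le_mul_left _ ?_)
    exact Nat.pow_le_pow_right hZ1 (Nat.mul_le_mul_left 2 (Nat.mul_le_mul_right _ hIle))
  have hqq : ∀ i ∈ I, ∀ j < uP T l, q i j ∈ P₁ ∧ (q i j).Prime ∧ s₀ * q i j ∈ A ∧
      (∀ s, s ∣ s₀ → s ≠ s₀ → s * q i j ∉ A) ∧ yy L < q i j ∧
      VV L < q i j ∧ q i j ≤ ZZ l ∧ ε (s₀ * q i j) = e₀ := by
    intro i hi j hj
    have h0 := hq1 i hi j hj
    obtain ⟨⟨h1, h2, h3, h4, h5⟩, h6, h7'⟩ := hP2 _ (hP₁ h0)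
    exact ⟨h0, h1, h3, h4, lt_of_le_of_lt h7.2.2 h6, lt_of_le_of_lt h7.2.1 h6, h7', h5⟩
  -- the integers
  have hex : ∀ t : I → Fin (2 ^ L), ∃ N, N ≡ a [MOD RM T L * QQ (GG L) (yy L)] ∧ YY l ≤ N ∧
      N + VV L ≤ YY l ^ 2 ∧ ∀ i ≤ VV L, |fR A ε K (yy L) (N + i) -
        (if h : i ∈ I then e₀ * (((2 * NB T l + 1) * (t ⟨i, h⟩ : ℕ) : ℕ) : ℤ) else 0)| ≤
          (NB T l : ℤ) := by
    intro t
    obtain ⟨N, hN1, hN2, hN3, hN4⟩ := design A hA ε hε1 (yy L) (RM T L * QQ (GG L) (yy L)) (VV L)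
      (YY l) (2 ^ l) a (uP T l) (ZZ l) s₀ (JJ L) e₀ hKyy P₁ hPind I q hIV
      (Nat.mul_pos hRMpos hQpos) hQ4
      hs0 hs₀ (hTd.trans (hTRM.trans (dvd_mul_right _ _))) hIs hqq hq2 hZ1
      hsize h9 h4 hQy hy2 (by unfold JJ; omega) (s1 hL1) h9'
      (fun i => if h : i ∈ I then (2 * NB T l + 1) * (t ⟨i, h⟩ : ℕ) else 0) (by
        intro i
        split_ifs with h
        · unfold uP
          rw [← hL]
          exact Nat.mul_le_mul_left _ (t ⟨i, h⟩).2.le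
        · exact Nat.zero_le _)
    have hnn : (((K + K * JJ L) * 2 ^ l : ℕ) : ℤ) ≤ (NB T l : ℤ) := by
      unfold NB
      rw [← hL]
      have hKl' : K ≤ l := by omega
      exact_mod_cast Nat.mul_le_mul_right _
        (Nat.add_le_add hKl' (Nat.mul_le_mul_right _ hKl') : K + K * JJ L ≤ l + l * JJ L)
    refine ⟨N, hN1, hN2, hN3, fun i hi => ?_⟩
    have := (hN4 i hi).trans hnn
    by_cases h : i ∈ I
    · simp only [h, ↓reduceIte, ↓reduceDIte] at this ⊢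
      exact this
    · simp only [h, ↓reduceIte, ↓reduceDIte] at this ⊢
      exact this
  choose N hN1 hN2 hN3 hN4 using hex
  have hYpos : 1 ≤ YY l := Nat.one_le_two_pow
  have hNpos : ∀ t, 1 ≤ N t := fun t => hYpos.trans (hN2 t)
  have hpow : 0 < 2 ^ L := by positivity
  obtain ⟨Bf, hBfdef⟩ : ∃ Bf : ℕ → ℕ, ∀ i, Bf i = if i ∈ I then bP T l else NB T l :=
    ⟨_, fun _ => rfl⟩
  have hBi : ∀ t, ∀ i ≤ VV L, |fR A ε K (yy L) (N t + i)| ≤ (Bf i : ℤ) := by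
    intro t i hi
    have h := hN4 t i hi
    rw [hBfdef]
    split_ifs at h with hiI
    · rw [if_pos hiI]
      have hBdef : (bP T l : ℤ) = (uP T l : ℤ) + (NB T l : ℤ) := by
        unfold bP
        push_cast
        ring
      rw [hBdef]
      have h3 : |e₀ * (((2 * NB T l + 1) * (t ⟨i, hiI⟩ : ℕ) : ℕ) : ℤ)| ≤ (uP T l : ℤ) := by
        rw [abs_mul, he₀, one_mul, abs_of_nonneg (Int.natCast_nonneg _)]
        have h5 : (2 * NB T l + 1) * (t ⟨i, hiI⟩ : ℕ) ≤ uP T l := by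
          unfold uP
          rw [← hL]
          exact Nat.mul_le_mul_left _ (t ⟨i, hiI⟩).2.le
        exact_mod_cast h5
      have h4 := abs_sub_abs_le_abs_sub (fR A ε K (yy L) (N t + i))
        (e₀ * (((2 * NB T l + 1) * (t ⟨i, hiI⟩ : ℕ) : ℕ) : ℤ))
      linarith
    · rw [if_neg hiI]
      rw [sub_zero] at h
      exact h
  have hBf_le : ∀ i, Bf i ≤ bP T l := by
    intro i
    rw [hBfdef]
    unfold bP
    split_ifs
    · exact le_rfl
    · omega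
  have hBall : ∀ t, ∀ i ≤ VV L, |fR A ε K (yy L) (N t + i)| ≤ (bP T l : ℤ) := by
    intro t i hi
    exact (hBi t i hi).trans (by exact_mod_cast hBf_le i)
  have hbet : ∀ t d i, i ≤ VV L → 0 < d → d ∣ N t + i →
      bet lam (aR A ε θ (yy L)) ((N t + i) / d) ≤ (RS K l : ℝ) := by
    intro t d i hi hd0 hdi
    have e1 : 1 ≤ (N t + i) / d := by
      rw [Nat.one_le_div_iff hd0]
      have := hNpos t
      exact Nat.le_of_dvd (by omega) hdi
    have e2 : (N t + i) / d ≤ YY l ^ 2 := by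
      refine (Nat.div_le_self _ _).trans ?_
      have := hN3 t
      omega
    have e3 := hCb lam hlam (aR A ε θ (yy L)) (3 * (K : ℝ)) (by positivity) (fun t => by
      have h1 := abs_aR_le hA ε θ hε1 hθ (yy L) t
      have h2 : ((|aR A ε θ (yy L) t| : ℤ) : ℝ) ≤
          ((((3 * K) * (Nat.log 2 t + 1) ^ K : ℕ) : ℤ) : ℝ) := by exact_mod_cast h1
      rw [Int.cast_abs] at h2
      push_cast at h2
      exact h2) _ e1
    refine e3.trans ?_
    unfold RS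
    push_cast
    exact mul_le_mul hCl (RS_ge e2) (by positivity) (Nat.cast_nonneg l)
  have hED : DD L ≤ EE L := by
    unfold EE
    exact Nat.le_mul_of_pos_right _ (by omega)
  -- different t give different vectors
  have hdiff : ∀ t t', (∀ i, EE L < i → i ≤ EE L + WW L →
      fR A ε K (yy L) (N t + i) = fR A ε K (yy L) (N t' + i)) → t = t' := by
    intro t t' h
    funext ⟨i, hi⟩
    have hi' := hi
    rw [hIdef, Finset.mem_filter, Finset.mem_Ioc] at hi'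
    have h1 := h i hi'.1.1 hi'.1.2
    have h2 := hN4 t i (hIV i hi)
    have h3 := hN4 t' i (hIV i hi)
    rw [dif_pos hi] at h2 h3
    rw [← h1] at h3
    have h4 : |e₀ * (((2 * NB T l + 1) * (t ⟨i, hi⟩ : ℕ) : ℕ) : ℤ) -
        e₀ * (((2 * NB T l + 1) * (t' ⟨i, hi⟩ : ℕ) : ℕ) : ℤ)| ≤ 2 * (NB T l : ℤ) := by
      have := abs_sub_le (e₀ * (((2 * NB T l + 1) * (t ⟨i, hi⟩ : ℕ) : ℕ) : ℤ))
        (fR A ε K (yy L) (N t + i)) (e₀ * (((2 * NB T l + 1) * (t' ⟨i, hi⟩ : ℕ) : ℕ) : ℤ))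
      rw [abs_sub_comm] at h2
      linarith
    rw [← mul_sub, abs_mul, he₀, one_mul] at h4
    have h5 : (((2 * NB T l + 1) * (t ⟨i, hi⟩ : ℕ) : ℕ) : ℤ) -
        (((2 * NB T l + 1) * (t' ⟨i, hi⟩ : ℕ) : ℕ) : ℤ) =
        (2 * (NB T l : ℤ) + 1) * (((t ⟨i, hi⟩ : ℕ) : ℤ) - ((t' ⟨i, hi⟩ : ℕ) : ℤ)) := by
      push_cast
      ring
    rw [h5, abs_mul, abs_of_nonneg (by positivity : (0:ℤ) ≤ 2 * (NB T l : ℤ) + 1)] at h4
    have h6 : |((t ⟨i, hi⟩ : ℕ) : ℤ) - ((t' ⟨i, hi⟩ : ℕ) : ℤ)| < 1 := by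
      by_contra hcon
      push Not at hcon
      have h7 : (2 * (NB T l : ℤ) + 1) * 1 ≤ (2 * (NB T l : ℤ) + 1) *
          |((t ⟨i, hi⟩ : ℕ) : ℤ) - ((t' ⟨i, hi⟩ : ℕ) : ℤ)| :=
        mul_le_mul_of_nonneg_left hcon (by positivity)
      linarith
    rw [Int.abs_lt_one_iff, sub_eq_zero] at h6
    exact Fin.ext (by exact_mod_cast h6)
  have hNinj : Function.Injective N := by
    intro t t' h
    refine hdiff t t' fun i _ _ => ?_
    rw [h]
  obtain ⟨𝒩, h𝒩⟩ : ∃ 𝒩 : Finset ℕ, 𝒩 = Finset.univ.image N := ⟨_, rfl⟩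
  have hmem : ∀ M ∈ 𝒩, ∃ t, N t = M := by
    intro M hM
    rw [h𝒩, Finset.mem_image] at hM
    obtain ⟨t, -, ht⟩ := hM
    exact ⟨t, ht⟩
  have hcard : 𝒩.card = (2 ^ L) ^ I.card := by
    rw [h𝒩, Finset.card_image_of_injective _ hNinj, Finset.card_univ, Fintype.card_fun,
      Fintype.card_fin, Fintype.card_coe]
  have hVH : EE L + WW L + K * 2 ^ l * DD L ≤ VV L := by
    have e1 : K * 2 ^ l * DD L ≤ EE L := by
      unfold EE
      rw [mul_comm]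
      have h1 : K ≤ 2 ^ l := by
        have : l < 2 ^ l := Nat.lt_two_pow_self
        omega
      have h2 : K * 2 ^ l ≤ 2 ^ L := by
        calc K * 2 ^ l ≤ 2 ^ l * 2 ^ l := Nat.mul_le_mul_right _ h1
          _ = 2 ^ (l + l) := (pow_add _ _ _).symm
          _ ≤ 2 ^ L := Nat.pow_le_pow_right (by norm_num) (by rw [hL]; nlinarith)
      exact Nat.mul_le_mul_left _ (by omega)
    omega
  have hBadV : ∀ i ∈ Bad (QQ (GG L) (yy L)) (DD L) (GG L) (EE L) (WW L) a, i ≤ VV L := by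
    intro i hi
    unfold Bad at hi
    rw [mem_filter, mem_Ioc] at hi
    omega
  have hsmall : ∀ t, ∀ i ≤ VV L, ∀ m : ℕ, (∀ p : ℕ, p.Prime → p ∣ m → p ≤ yy L) →
      (m ∣ N t + i ↔ m ∣ a + i) := by
    intro t i hi m hm
    have e1 := s2 hL1 haT
    exact smooth_dvd (J := JM T L) hPrim ((hN1 t).of_dvd hRMP) (by omega) (by omega) hm
  have hcount := count (lam := lam) (K := (K₀ : ℝ) ^ (yy L ^ 2)) hlam hA hKyy hy2 hθ
    dyn (Q := QQ (GG L) (yy L)) (D := DD L) (G := GG L) (E := EE L) (W := WW L) (V := VV L)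
    (X := YY l ^ 2) (H := K * 2 ^ l) (a := a) (B := bP T l) (Rm := RM T L)
    (K₁ := K₀ ^ (yy L ^ 2) * (RS K l + 1)) (Rc := (RS K l : ℝ)) (ρ := 30 * (l : ℝ)) hQpr hQpos
    (qq_odd hG2) (Dvd.dvd.trans (⟨K.factorial * s₀, by rw [hT]; ring⟩ : 4 ∣ T) hTRM) Bf
    (h5 lam hlam) (h6' lam hlam) hVH (by positivity) (by
      push_cast
      refine le_of_eq ?_
      ring) 𝒩 (by
      intro M hM
      obtain ⟨t, rfl⟩ := hmem M hM
      exact hNpos t) (by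
      intro M hM
      obtain ⟨t, rfl⟩ := hmem M hM
      exact hN3 t) (by
      intro M hM
      obtain ⟨t, rfl⟩ := hmem M hM
      exact hN1 t) (by
      intro M hM M' hM' i hi m hm
      obtain ⟨t, rfl⟩ := hmem M hM
      obtain ⟨t', rfl⟩ := hmem M' hM'
      rw [hsmall t i hi m hm, hsmall t' i hi m hm]) (by
      intro M hM i hi
      obtain ⟨t, rfl⟩ := hmem M hM
      exact hBall t i hi) (by
      intro M hM i hi
      obtain ⟨t, rfl⟩ := hmem M hM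
      exact hBi t i (hBadV i hi)) (by
      intro M hM i d hi hd0 _ _ hdi
      obtain ⟨t, rfl⟩ := hmem M hM
      exact hbet t d i hi hd0 hdi) (by
      intro M hM d hd0 hdQ hdD
      obtain ⟨t, rfl⟩ := hmem M hM
      have e1 := i0_gt a (EE L) hd0
      have e2 := i0_dvd a (EE L) hd0
      have e3 := i0_le a (EE L) hd0
      have e4 : d ∣ N t + i0 a (EE L) d := by
        have h1 : N t + i0 a (EE L) d ≡ a + i0 a (EE L) d [MOD d] :=
          Nat.ModEq.add_right _ ((hN1 t).of_dvd (Dvd.dvd.mul_left hdQ (RM T L)))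
        exact (h1.dvd_iff dvd_rfl).2 e2
      have e5 : d ∣ N t + (i0 a (EE L) d - d) := by
        have : N t + (i0 a (EE L) d - d) = N t + i0 a (EE L) d - d := by omega
        rw [this]
        exact Nat.dvd_sub e4 dvd_rfl
      have e6 : (N t + i0 a (EE L) d) / d - 1 = (N t + (i0 a (EE L) d - d)) / d := by
        have : N t + i0 a (EE L) d = N t + (i0 a (EE L) d - d) + d := by omega
        rw [this, Nat.add_div_right _ hd0]
        rfl
      rw [e6]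
      exact hbet t d _ (by omega) hd0 e5) (by
      intro M hM M' hM' h
      obtain ⟨t, rfl⟩ := hmem M hM
      obtain ⟨t', rfl⟩ := hmem M' hM'
      rw [hdiff t t' h])
  rw [hcard] at hcount
  obtain ⟨Bd, hBd⟩ : ∃ Bd, Bd = Bad (QQ (GG L) (yy L)) (DD L) (GG L) (EE L) (WW L) a := ⟨_, rfl⟩
  rw [← hBd] at hcount ha₀ hbc
  have hBadle : Bd.card ≤ WW L / 16 := by omega
  obtain ⟨bI, hbI⟩ : ∃ bI, bI = (Bd.filter (fun i => i % T = b)).card := ⟨_, rfl⟩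
  rw [← hbI] at hbc
  have hbI16 : 16 * T * bI ≤ WW L := by
    calc 16 * T * bI = 16 * (T * bI) := by ring
      _ ≤ 16 * Bd.card := Nat.mul_le_mul_left _ hbc
      _ ≤ WW L := ha₀
  have hprod : ∏ i ∈ Bd, (2 * Bf i + 1) ≤ (2 * bP T l + 1) ^ bI * (2 * NB T l + 1) ^ (WW L / 16) := by
    rw [← Finset.prod_filter_mul_prod_filter_not Bd (fun i => i % T = b)]
    refine Nat.mul_le_mul ?_ ?_
    · rw [hbI, ← Finset.prod_const]
      exact Finset.prod_le_prod (fun _ _ => Nat.zero_le _) fun i _ => by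
        have := hBf_le i
        omega
    · have e1 : ∏ i ∈ Bd.filter (fun i => ¬ i % T = b), (2 * Bf i + 1) =
          (2 * NB T l + 1) ^ (Bd.filter (fun i => ¬ i % T = b)).card := by
        rw [← Finset.prod_const]
        refine Finset.prod_congr rfl fun i hi => ?_
        rw [mem_filter] at hi
        rw [hBfdef, if_neg]
        intro hiI
        rw [hIdef, mem_filter] at hiI
        exact hi.2 hiI.2
      rw [e1]
      refine Nat.pow_le_pow_right (by omega) ?_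
      exact (Finset.card_filter_le _ _).trans hBadle
  have hfin : (2 ^ L) ^ (WW L / T) ≤ (2 * bP T l + 1) ^ bI * (2 * NB T l + 1) ^ (WW L / 16) *
      ((2 * (K₀ ^ (yy L ^ 2) * (RS K l + 1)) + 1) ^ 2) ^ DD L *
      (VV L + 2) ^ (l * yy L * DD L) := by
    refine (Nat.pow_le_pow_right hpow hIcard).trans (hcount.trans ?_)
    refine Nat.mul_le_mul (Nat.mul_le_mul_right _ hprod) ?_
    exact Nat.pow_le_pow_right (by omega) (Nat.mul_le_mul_right _ (Nat.mul_le_mul_right _ (by omega)))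
  have hfin2 := h10 bI hbI16
  omega

open Classical in
/-- The core for all large `l`, uniformly in `s₀`. -/
theorem core (A : Set ℕ) {K : ℕ} (hA : Good A K) (θ ε : ℕ → ℤ)
    (hθ : Th θ) (hε1 : ∀ p, |ε p| ≤ 1)
    (lam : ℝ) (hlam : 3 / 2 ≤ lam) (K₀ : ℕ)
    (hD : ∀ y : ℕ, 2 ≤ y → Nonempty (Dyn lam (aR A ε θ y) ((K₀ : ℝ) ^ (y ^ 2)))) :
    ∃ L₀ : ℕ, ∀ l ≥ L₀, ∀ s₀ : ℕ, 0 < s₀ → Sm K s₀ → (4 * K.factorial * s₀) ^ 40 ≤ 2 ^ l →
      ∀ e₀ : ℤ, |e₀| = 1 → ∀ P : Finset ℕ, P.card = 2 ^ (2 ^ (l - 2)) →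
      (∀ q ∈ P, (q.Prime ∧ K < q ∧ s₀ * q ∈ A ∧ (∀ s, s ∣ s₀ → s ≠ s₀ → s * q ∉ A) ∧
        ε (s₀ * q) = e₀) ∧ 2 ^ (2 ^ (l - 2)) < q ∧ q ≤ 2 ^ (2 ^ (2 ^ (l - 2)))) → False := by
  obtain ⟨Cb, hCb0, hCb⟩ := bet_pow K
  obtain ⟨L₁, hL₁⟩ := eventually_atTop.1 (p1.and (p2.and p3))
  obtain ⟨L₂, hL₂⟩ := eventually_atTop.1 (master.and (q6'.and
    (eventually_ge_atTop (K₀ + 2 * K + 10 + L₁ + ⌈3 * (K : ℝ) * Cb⌉₊))))
  refine ⟨L₂, ?_⟩
  intro l hl s₀ hs0 hs₀ hsl e₀ he₀ P hP hP2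
  obtain ⟨hmas, hq6, hbig⟩ := hL₂ l hl
  obtain ⟨T, hT⟩ : ∃ T, T = 4 * K.factorial * s₀ := ⟨_, rfl⟩
  have hT4 : 4 ≤ T := by
    rw [hT]
    have h1 : 0 < K.factorial * s₀ := Nat.mul_pos (Nat.factorial_pos K) hs0
    have h2 : 4 * K.factorial * s₀ = 4 * (K.factorial * s₀) := by ring
    omega
  rw [← hT] at hsl
  obtain ⟨hm1, hm3⟩ := hmas T hT4 hsl
  have hl10 : 10 ≤ l := by omega
  have hTl : L₁ ≤ T * l := by
    have : l ≤ T * l := Nat.le_mul_of_pos_left _ (by omega)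
    omega
  obtain ⟨h1, h2, h3⟩ := hL₁ (T * l) hTl
  have hCl : 3 * (K : ℝ) * Cb ≤ l := by
    refine (Nat.le_ceil _).trans ?_
    have : ⌈3 * (K : ℝ) * Cb⌉₊ ≤ l := by omega
    exact_mod_cast this
  exact core_l A hA θ ε hθ hε1 Cb hCb lam hlam K₀ hD s₀ hs0 hs₀ e₀ he₀ l T (by omega) hl10 hCl hT
    P hP hP2 h1 h2 h3 (r4 hT4 hl10 hm1) (r5 hT4 hl10 hm3) (hq6 K) (r7 hT4 hl10 hm1 hm3)
    (r8 hT4 hl10 hm1 hm3) (r9 hT4 hl10 hm1) (s3 hT4 hl10 hm1)
    (fun bI hbI => r10 hT4 K₀ K (by omega) hm3 bI hbI)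

end Pool.Agent.Helper51.PS
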