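import Pool.Agent.Helper51.PS.Cl
import Pool.Agent.Helper51.BR.Final

/-!
# MP_175197_nt, project PS: the members which are not in `Lin` are negligible
-/

set_option autoImplicit false

namespace Pool.Agent.Helper51.PS

open Finset
open Pool.Agent.Helper51.BR (Sp)

/-- a member of `Oth` has a prime factor `p > K` with `p ^ 2 ≤ n` -/
theorem oth_prime {A : Set ℕ} {K n : ℕ} (hn0 : 0 < n) (hn : n ∈ Oth A K) :
    ∃ p : ℕ, p.Prime ∧ K < p ∧ p ∣ n ∧ p ^ 2 ≤ n := by
  obtain ⟨hA, hL, q, hq, ⟨m, hm⟩, hKq⟩ := hn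
  have hm0 : 0 < m := Nat.pos_of_ne_zero fun h => by
    rw [h, mul_zero] at hm
    omega
  have h1 : ¬ Sm K m := fun h => hL ⟨hA, m, q, by rw [hm, mul_comm], hm0, h, hq, hKq⟩
  unfold Sm at h1
  push Not at h1
  obtain ⟨r, hr, hrm, hKr⟩ := h1
  have h2 : q * r ∣ n := by
    rw [hm]
    exact mul_dvd_mul_left q hrm
  have h3 : q * r ≤ n := Nat.le_of_dvd hn0 h2
  rcases le_total q r with h | h
  · refine ⟨q, hq, hKq, ⟨m, hm⟩, ?_⟩
    have : q * q ≤ q * r := Nat.mul_le_mul_left q h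
    rw [pow_two]
    omega
  · refine ⟨r, hr, hKr, (dvd_mul_left r q).trans h2, ?_⟩
    have : r * r ≤ q * r := Nat.mul_le_mul_right r h
    rw [pow_two]
    omega

/-- E1. Split `Oth`: (i) `Sp K n`: `n = s * x ^ 2` or `s * (x ^ 2 * x.minFac)`, `s ≤ K` (as class `C₃`
in `BR.Final.exists_class`, use `BP.summable_fib`, `BR.pow_form`, `BR.sp_form`); (ii) not `Sp K n`: let
`p` be the least prime factor `> K`; then `p ^ 2 ≤ n` (a second prime factor `> K`, or `p ^ 2 ∣ n`,
otherwise `n ∈ Lin`), at most `K` such `n` for each `p` by `hmult`; compare with `K / p ^ 2`. -/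
theorem oth_summable (A : Set ℕ) (K : ℕ) (hK : 2 ≤ K) (h0 : ∀ n ∈ A, 0 < n)
    (hmult : ∀ p : ℕ, p.Prime → K < p → ∀ S : Finset ℕ,
      (∀ n ∈ S, n ∈ A ∧ p ∣ n ∧ ¬ Sp K n) → S.card ≤ K)
    [DecidablePred (· ∈ Oth A K)] :
    Summable (fun n : ℕ => if n ∈ Oth A K then 1 / (n : ℝ) else 0) := by
  classical
  have hnn : ∀ (c : Prop) (_ : Decidable c) (p : ℕ), (0:ℝ) ≤ if c then 1 / (p : ℝ) else 0 := by
    intro c _ p
    split_ifs
    · positivity
    · exact le_rfl
  obtain ⟨C₂, hC₂⟩ : ∃ C₂ : Set ℕ, ∀ n, n ∈ C₂ ↔ n ∈ Oth A K ∧ ¬ Sp K n :=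
    ⟨{n | n ∈ Oth A K ∧ ¬ Sp K n}, fun _ => Iff.rfl⟩
  have hC₂s : Summable (fun n : ℕ => if n ∈ C₂ then 1 / (n : ℝ) else 0) := by
    have h1 : ∀ n ∈ C₂, ∃ p : ℕ, p.Prime ∧ K < p ∧ p ∣ n ∧ p ^ 2 ≤ n :=
      fun n hn => oth_prime (h0 n ((hC₂ n).1 hn).1.1) ((hC₂ n).1 hn).1
    choose! g hg using h1
    refine Pool.Agent.Helper51.BP.summable_fib C₂ K g (fun p => 1 / (p : ℝ) ^ 2)
      (fun p => by positivity) (Real.summable_one_div_nat_pow.2 one_lt_two) ?_ ?_
    · intro n hn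
      obtain ⟨h2, -, -, h3⟩ := hg n hn
      have h4 : (0:ℝ) < (g n : ℝ) ^ 2 := by
        have := h2.pos
        positivity
      exact one_div_le_one_div_of_le h4 (by exact_mod_cast h3)
    · intro p S hS
      rcases S.eq_empty_or_nonempty with rfl | ⟨n₀, hn₀⟩
      · simp
      · have h2 := hS n₀ hn₀
        obtain ⟨h3, h4, -, -⟩ := hg n₀ h2.1
        rw [h2.2] at h3 h4
        refine hmult p h3 h4 S fun n hn => ?_
        have h5 := hS n hn
        refine ⟨((hC₂ n).1 h5.1).1.1, ?_, ((hC₂ n).1 h5.1).2⟩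
        have h6 := (hg n h5.1).2.2.1
        rwa [h5.2] at h6
  obtain ⟨C₃, hC₃⟩ : ∃ C₃ : Set ℕ, ∀ n, n ∈ C₃ ↔ n ∈ A ∧ ∃ x s, 0 < x ∧ s ≤ K ∧
      (n = s * x ^ 2 ∨ n = s * (x ^ 2 * x.minFac)) :=
    ⟨{n | n ∈ A ∧ ∃ x s, 0 < x ∧ s ≤ K ∧
      (n = s * x ^ 2 ∨ n = s * (x ^ 2 * x.minFac))}, fun _ => Iff.rfl⟩
  have hC₃s : Summable (fun n : ℕ => if n ∈ C₃ then 1 / (n : ℝ) else 0) := by
    have h1 : ∀ n ∈ C₃, ∃ x s, 0 < x ∧ s ≤ K ∧ (n = s * x ^ 2 ∨ n = s * (x ^ 2 * x.minFac)) :=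
      fun n hn => ((hC₃ n).1 hn).2
    choose! g hg using h1
    refine Pool.Agent.Helper51.BP.summable_fib C₃ ((K + 1) + (K + 1)) g (fun p => 1 / (p : ℝ) ^ 2)
      (fun p => by positivity) (Real.summable_one_div_nat_pow.2 one_lt_two) ?_ ?_
    · intro n hn
      obtain ⟨s, h2, -, h3⟩ := hg n hn
      have hn0 : 0 < n := h0 n ((hC₃ n).1 hn).1
      have hs0 : 0 < s := Nat.pos_of_ne_zero fun h => by
        rcases h3 with h3 | h3
        · rw [h, zero_mul] at h3
          omega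
        · rw [h, zero_mul] at h3
          omega
      have h4 : g n ^ 2 ≤ n := by
        rcases h3 with h3 | h3
        · conv_rhs => rw [h3]
          exact Nat.le_mul_of_pos_left _ hs0
        · conv_rhs => rw [h3]
          exact (Nat.le_mul_of_pos_right _ (Nat.minFac_pos _)).trans
            (Nat.le_mul_of_pos_left _ hs0)
      have h5 : (0:ℝ) < (g n : ℝ) ^ 2 := by positivity
      exact one_div_le_one_div_of_le h5 (by exact_mod_cast h4)
    · intro x S hS
      refine (card_le_card (t := (range (K + 1)).image (fun s => s * x ^ 2) ∪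
        (range (K + 1)).image (fun s => s * (x ^ 2 * x.minFac))) fun n hn => ?_).trans
        ((card_union_le _ _).trans (Nat.add_le_add (card_image_le.trans (card_range _).le)
          (card_image_le.trans (card_range _).le)))
      have h2 := hS n hn
      obtain ⟨s, -, hs, h3⟩ := hg n h2.1
      rw [h2.2] at h3
      rw [mem_union, mem_image, mem_image]
      rcases h3 with h3 | h3
      · exact Or.inl ⟨s, mem_range.2 (by omega), h3.symm⟩
      · exact Or.inr ⟨s, mem_range.2 (by omega), h3.symm⟩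
  refine Summable.of_nonneg_of_le (fun p => hnn _ _ p) ?_ (hC₂s.add hC₃s)
  intro n
  have a2 := hnn (n ∈ C₂) inferInstance n
  have a3 := hnn (n ∈ C₃) inferInstance n
  by_cases hn : n ∈ Oth A K
  · rw [if_pos hn]
    by_cases hpp : Sp K n
    · obtain ⟨hnA, hnL, q, hq, hqn, hKq⟩ := hn
      obtain ⟨s, m, hs, hm, hsm⟩ := hpp
      have hn0 : 0 < n := h0 n hnA
      have hs0 : 0 < s := Nat.pos_of_ne_zero fun h => by
        rw [hsm, h, zero_mul] at hn0
        exact lt_irrefl _ hn0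
      have hmp : ¬ m.Prime := by
        intro hp
        have h1 : q ∣ m := by
          rw [hsm] at hqn
          rcases (Nat.Prime.dvd_mul hq).1 hqn with h | h
          · have := Nat.le_of_dvd hs0 h
            omega
          · exact h
        have h2 : q = m := (Nat.prime_dvd_prime_iff_eq hq hp).1 h1
        refine hnL ⟨hnA, s, m, hsm, hs0, ?_, hp, h2 ▸ hKq⟩
        intro r _ hrs
        exact (Nat.le_of_dvd hs0 hrs).trans hs
      obtain ⟨x, hx, hxm⟩ := Pool.Agent.Helper51.BR.pow_form hm hmp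
      have h4 : n ∈ C₃ := (hC₃ n).2 ⟨hnA, x, s, hx, hs, by
        rcases hxm with h | h
        · left
          rw [hsm, h]
        · right
          rw [hsm]
          exact congrArg (fun t => s * t) h⟩
      rw [if_pos h4]
      linarith
    · have h4 : n ∈ C₂ := (hC₂ n).2 ⟨hn, hpp⟩
      rw [if_pos h4]
      linarith
  · rw [if_neg hn]
    linarith

end Pool.Agent.Helper51.PS
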