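import Pool.Agent.Helper51.PS.Cl
import Pool.Agent.Helper10.ArithSums

set_option autoImplicit false

namespace Pool.Agent.Helper51.PS

open Finset
open Pool.Agent.Helper51.BR (Sp)

/-- upper bound of Mertens for the sum of `1 / p`, `p ≤ 2 ^ (2 ^ j)` -/
lemma sum_inv_prime_le (j : ℕ) :
    ∑ p ∈ (Icc 1 (2 ^ (2 ^ j))).filter Nat.Prime, 1 / (p : ℝ) ≤ 4 * j + 1 := by
  induction j with
  | zero =>
    have h : (Icc 1 (2 ^ (2 ^ 0))).filter Nat.Prime = {2} := by decide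
    rw [h]
    norm_num
  | succ j ih =>
    set n : ℕ := 2 ^ (2 ^ j) with hn
    set m : ℕ := 2 ^ (2 ^ (j + 1)) with hm
    have hnm : n ≤ m :=
      Nat.pow_le_pow_right (by norm_num) (Nat.pow_le_pow_right (by norm_num) (Nat.le_succ j))
    have hsplit : (Icc 1 m).filter Nat.Prime =
        (Icc 1 n).filter Nat.Prime ∪ (Ioc n m).filter Nat.Prime := by
      ext p
      simp only [mem_union, mem_filter, mem_Icc, mem_Ioc]
      constructor
      · rintro ⟨⟨h1, h2⟩, h3⟩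
        rcases le_or_gt p n with h | h
        · exact Or.inl ⟨⟨h1, h⟩, h3⟩
        · exact Or.inr ⟨⟨h, h2⟩, h3⟩
      · rintro (⟨⟨h1, h2⟩, h3⟩ | ⟨⟨h1, h2⟩, h3⟩)
        · exact ⟨⟨h1, h2.trans hnm⟩, h3⟩
        · exact ⟨⟨h3.one_lt.le, h2⟩, h3⟩
    have hdis : Disjoint ((Icc 1 n).filter Nat.Prime) ((Ioc n m).filter Nat.Prime) := by
      rw [Finset.disjoint_left]
      intro p hp hq
      rw [mem_filter, mem_Icc] at hp
      rw [mem_filter, mem_Ioc] at hq
      omega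
    rw [hsplit, Finset.sum_union hdis]
    have hl2 : 0 < Real.log 2 := Real.log_pos (by norm_num)
    have hlogn : Real.log (n : ℝ) = 2 ^ j * Real.log 2 := by
      rw [hn]
      push_cast
      rw [Real.log_pow]
      push_cast
      ring
    have hlogm : Real.log (m : ℝ) = 2 * 2 ^ j * Real.log 2 := by
      rw [hm]
      push_cast
      rw [Real.log_pow]
      push_cast
      ring
    have hlog4 : Real.log 4 = 2 * Real.log 2 := by
      rw [show (4 : ℝ) = 2 ^ 2 by norm_num, Real.log_pow]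
      norm_num
    have h2 : ∑ p ∈ (Ioc n m).filter Nat.Prime, 1 / (p : ℝ) ≤ 4 := by
      have h3 := Pool.Agent.Helper10.mertens_upper m Nat.one_le_two_pow
      have h4 : ∑ p ∈ (Ioc n m).filter Nat.Prime, 1 / (p : ℝ) * (2 ^ j * Real.log 2) ≤
          ∑ p ∈ (Icc 1 m).filter Nat.Prime, Real.log p / p := by
        calc ∑ p ∈ (Ioc n m).filter Nat.Prime, 1 / (p : ℝ) * (2 ^ j * Real.log 2)
            ≤ ∑ p ∈ (Ioc n m).filter Nat.Prime, Real.log p / p := by
              apply Finset.sum_le_sum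
              intro p hp
              rw [mem_filter, mem_Ioc] at hp
              have hp0 : (0 : ℝ) < p := by exact_mod_cast hp.2.pos
              have hn0 : (0 : ℝ) < n := by rw [hn]; positivity
              have hle : Real.log (n : ℝ) ≤ Real.log p :=
                Real.log_le_log hn0 (by exact_mod_cast hp.1.1.le)
              rw [← hlogn, one_div_mul_eq_div]
              exact div_le_div_of_nonneg_right hle hp0.le
          _ ≤ ∑ p ∈ (Icc 1 m).filter Nat.Prime, Real.log p / p := by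
              apply Finset.sum_le_sum_of_subset_of_nonneg
              · intro p hp
                rw [mem_filter, mem_Ioc] at hp
                rw [mem_filter, mem_Icc]
                exact ⟨⟨hp.2.one_lt.le, hp.1.2⟩, hp.2⟩
              · intro p _ _
                exact div_nonneg (Real.log_natCast_nonneg p) (Nat.cast_nonneg p)
      rw [← Finset.sum_mul] at h4
      have h6 : (1 : ℝ) ≤ 2 ^ j := one_le_pow₀ (by norm_num)
      have h5 : (∑ p ∈ (Ioc n m).filter Nat.Prime, 1 / (p : ℝ)) * (2 ^ j * Real.log 2) ≤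
          4 * (2 ^ j * Real.log 2) := by
        rw [hlogm, hlog4] at h3
        nlinarith
      exact le_of_mul_le_mul_right h5 (by positivity)
    push_cast
    linarith

lemma special_form {K n s p : ℕ} (hn : 0 < n) (hs : Sm K s) (hp : p.Prime) (hK : K < p)
    (he : n = s * p) (hSp : Sp K n) : s ≤ K := by
  obtain ⟨s', m, hs', hm, h⟩ := hSp
  have hps : ¬ p ∣ s := fun h => absurd (hs p hp h) (by omega)
  have hs'0 : 0 < s' := by
    rcases Nat.eq_zero_or_pos s' with h0 | h0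
    · rw [h0, zero_mul] at h
      omega
    · exact h0
  have hps' : ¬ p ∣ s' := fun h => absurd (Nat.le_of_dvd hs'0 h) (by omega)
  obtain ⟨q, k, hq, hk, rfl⟩ := (isPrimePow_nat_iff m).mp hm
  have hpm : p ∣ s' * q ^ k := by
    rw [← h, he]
    exact dvd_mul_left p s
  have hpq : p = q := by
    rcases (hp.dvd_mul).mp hpm with h1 | h1
    · exact absurd h1 hps'
    · exact (Nat.prime_dvd_prime_iff_eq hp hq).mp (hp.dvd_of_dvd_pow h1)
  subst hpq
  rcases Nat.lt_or_ge k 2 with h2 | h2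
  · have hk1 : k = 1 := by omega
    subst hk1
    rw [pow_one, he] at h
    have h3 : s = s' := Nat.eq_of_mul_eq_mul_right hp.pos h
    omega
  · exfalso
    apply hps
    obtain ⟨k', rfl⟩ := Nat.exists_eq_add_of_le h2
    have h4 : s * p = (s' * p ^ (1 + k')) * p := by
      rw [← he, h]
      ring
    have h3 := Nat.eq_of_mul_eq_mul_right hp.pos h4
    rw [h3, pow_add, pow_one]
    exact ⟨s' * p ^ k', by ring⟩

/-- the possible cofactors of `p` -/
def Cof (A : Set ℕ) (K p : ℕ) : Set ℕ := {s | 0 < s ∧ Sm K s ∧ s * p ∈ A}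

/-- the least cofactor -/
noncomputable def sig (A : Set ℕ) (K p : ℕ) : ℕ := sInf (Cof A K p)

lemma sig_mem {A : Set ℕ} {K p : ℕ} (h : (Cof A K p).Nonempty) : sig A K p ∈ Cof A K p :=
  Nat.sInf_mem h

lemma sig_le {A : Set ℕ} {K p s : ℕ} (h : s ∈ Cof A K p) : sig A K p ≤ s := Nat.sInf_le h

lemma mem_Cl {A : Set ℕ} {K p : ℕ} (hp : p.Prime) (hK : K < p) (h : (Cof A K p).Nonempty) :
    p ∈ Cl A K (sig A K p) := by
  have h1 := sig_mem h
  refine ⟨hp, hK, h1.2.2, fun s' hs' hne hA => ?_⟩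
  have hpos : 0 < s' := Nat.pos_of_dvd_of_pos hs' h1.1
  have hmem : s' ∈ Cof A K p := ⟨hpos, fun r hr hrs => h1.2.1 r hr (hrs.trans hs'), hA⟩
  have h2 := sig_le hmem
  have h3 := Nat.le_of_dvd h1.1 hs'
  exact hne (le_antisymm h3 h2)

open Classical in
lemma lin_fiber (A : Set ℕ) (K : ℕ) (h0 : ∀ n ∈ A, 0 < n)
    (hmult : ∀ p : ℕ, p.Prime → K < p → ∀ S : Finset ℕ,
      (∀ n ∈ S, n ∈ A ∧ p ∣ n ∧ ¬ Sp K n) → S.card ≤ K) (X : ℕ) :
    ∑ n ∈ (Icc 1 X).filter (fun n => n ∈ Lin A K), 1 / (n : ℝ) ≤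
      ∑ p ∈ (Icc 1 X).filter (fun p => p.Prime ∧ K < p ∧ (Cof A K p).Nonempty),
        (2 * K : ℝ) * (1 / ((sig A K p : ℝ) * p)) := by
  have hch : ∀ n : ℕ, ∃ p : ℕ, n ∈ Lin A K →
      (p.Prime ∧ K < p ∧ ∃ s, n = s * p ∧ s ∈ Cof A K p) := by
    intro n
    by_cases hn : n ∈ Lin A K
    · obtain ⟨hA, s, p, he, hs0, hs, hp, hK⟩ := hn
      exact ⟨p, fun _ => ⟨hp, hK, s, he, hs0, hs, he ▸ hA⟩⟩
    · exact ⟨0, fun h => absurd h hn⟩
  choose f hf using hch
  set F := (Icc 1 X).filter (fun n => n ∈ Lin A K) with hF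
  set T := (Icc 1 X).filter (fun p => p.Prime ∧ K < p ∧ (Cof A K p).Nonempty) with hT
  have hmaps : ∀ n ∈ F, f n ∈ T := by
    intro n hn
    rw [hF, mem_filter, mem_Icc] at hn
    obtain ⟨hp, hK, s, he, hs⟩ := hf n hn.2
    rw [hT, mem_filter, mem_Icc]
    have hd : f n ∣ n := Dvd.intro_left s he.symm
    exact ⟨⟨hp.one_lt.le, (Nat.le_of_dvd (by omega) hd).trans hn.1.2⟩, hp, hK, s, hs⟩
  rw [← Finset.sum_fiberwise_of_maps_to hmaps]
  apply Finset.sum_le_sum
  intro p hp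
  set G := F.filter (fun n => f n = p) with hG
  have hG1 : ∀ n ∈ G, n ∈ A ∧ p.Prime ∧ K < p ∧ ∃ s, n = s * p ∧ s ∈ Cof A K p := by
    intro n hn
    rw [hG, mem_filter, hF, mem_filter] at hn
    obtain ⟨⟨_, hl⟩, rfl⟩ := hn
    obtain ⟨a, b, c⟩ := hf n hl
    exact ⟨hl.1, a, b, c⟩
  have hcard : G.card ≤ 2 * K := by
    have c1 : (G.filter (fun n => Sp K n)).card ≤ K := by
      have hsub : G.filter (fun n => Sp K n) ⊆ (Icc 1 K).image (fun s => s * p) := by
        intro n hn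
        rw [mem_filter] at hn
        obtain ⟨hA, hp, hK, s, he, hs⟩ := hG1 n hn.1
        rw [mem_image]
        exact ⟨s, mem_Icc.mpr ⟨hs.1, special_form (h0 n hA) hs.2.1 hp hK he hn.2⟩, he.symm⟩
      calc (G.filter (fun n => Sp K n)).card ≤ ((Icc 1 K).image (fun s => s * p)).card :=
            card_le_card hsub
        _ ≤ (Icc 1 K).card := card_image_le
        _ = K := by simp
    have c2 : (G.filter (fun n => ¬ Sp K n)).card ≤ K := by
      rcases G.eq_empty_or_nonempty with hE | ⟨n0, hn0⟩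
      · simp [hE]
      · obtain ⟨_, hp, hK, _⟩ := hG1 n0 hn0
        apply hmult p hp hK
        intro n hn
        rw [mem_filter] at hn
        obtain ⟨hA, _, _, s, he, _⟩ := hG1 n hn.1
        exact ⟨hA, Dvd.intro_left s he.symm, hn.2⟩
    have c3 := Finset.card_filter_add_card_filter_not (s := G) (fun n => Sp K n)
    omega
  calc ∑ n ∈ G, 1 / (n : ℝ) ≤ ∑ n ∈ G, 1 / ((sig A K p : ℝ) * p) := by
        apply Finset.sum_le_sum
        intro n hn
        obtain ⟨hA, hp, hK, s, he, hs⟩ := hG1 n hn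
        have h1 : 0 < sig A K p := (sig_mem ⟨s, hs⟩).1
        have h2 : sig A K p ≤ s := sig_le hs
        have h3 : (0 : ℝ) < sig A K p := by exact_mod_cast h1
        have h4 : (0 : ℝ) < p := by exact_mod_cast hp.pos
        have h5 : (sig A K p : ℝ) ≤ s := by exact_mod_cast h2
        apply one_div_le_one_div_of_le (by positivity)
        rw [he]
        push_cast
        exact mul_le_mul_of_nonneg_right h5 h4.le
    _ = G.card * (1 / ((sig A K p : ℝ) * p)) := by rw [sum_const, nsmul_eq_mul]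
    _ ≤ (2 * K : ℝ) * (1 / ((sig A K p : ℝ) * p)) := by
        apply mul_le_mul_of_nonneg_right _ (by positivity)
        exact_mod_cast hcard

open Classical in
/-- the bound for the members up to `z L = 2 ^ (2 ^ (2 ^ (L - 2)))` -/
lemma level_bound (A : Set ℕ) (K : ℕ) (h0 : ∀ n ∈ A, 0 < n)
    (hmult : ∀ p : ℕ, p.Prime → K < p → ∀ S : Finset ℕ,
      (∀ n ∈ S, n ∈ A ∧ p ∣ n ∧ ¬ Sp K n) → S.card ≤ K) (L : ℕ) (hL : 2 ≤ L)
    (hfew : ∀ s : ℕ, 0 < s → Sm K s → (4 * K.factorial * s) ^ 40 ≤ 2 ^ L →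
      ∀ P : Finset ℕ, (∀ p ∈ P, p ∈ Cl A K s ∧ 2 ^ (2 ^ (L - 2)) < p ∧
        p ≤ 2 ^ (2 ^ (2 ^ (L - 2)))) → P.card < 2 * 2 ^ (2 ^ (L - 2)))
    (y R : ℝ) (hy1 : 1 ≤ y) (hyR : y ≤ R) (hy : y ^ 40 = 2 ^ L) (hyR2 : y * R = 2 ^ L)
    (hLR : 1 + (L : ℝ) / 2 ≤ R) :
    ∑ n ∈ (Icc 1 (2 ^ (2 ^ (2 ^ (L - 2))))).filter (fun n => n ∈ Lin A K), 1 / (n : ℝ) ≤
      2 * K * (18 * K.factorial) * R := by
  refine (lin_fiber A K h0 hmult _).trans ?_
  rw [← Finset.mul_sum]
  set T := (Icc 1 (2 ^ (2 ^ (2 ^ (L - 2))))).filter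
    (fun p => p.Prime ∧ K < p ∧ (Cof A K p).Nonempty) with hT
  set w : ℕ := 2 ^ (2 ^ (L - 2)) with hw
  have hw0 : (0 : ℝ) < w := by rw [hw]; positivity
  have hR0 : 0 < R := by linarith
  have hy0 : 0 < y := by linarith
  have hf1 : (1 : ℝ) ≤ K.factorial := by exact_mod_cast Nat.one_le_iff_ne_zero.mpr (Nat.factorial_ne_zero K)
  have hTm : ∀ p ∈ T, p.Prime ∧ K < p ∧ (Cof A K p).Nonempty ∧ p ≤ 2 ^ (2 ^ (2 ^ (L - 2))) ∧ 1 ≤ p := by
    intro p hp
    rw [hT, mem_filter, mem_Icc] at hp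
    exact ⟨hp.2.1, hp.2.2.1, hp.2.2.2, hp.1.2, hp.1.1⟩
  -- the three parts
  have hsplit : ∑ p ∈ T, 1 / ((sig A K p : ℝ) * p) =
      ∑ p ∈ T.filter (fun p => p ≤ w), 1 / ((sig A K p : ℝ) * p) +
      (∑ p ∈ (T.filter (fun p => ¬ p ≤ w)).filter (fun p => (4 * K.factorial * sig A K p) ^ 40 ≤ 2 ^ L),
        1 / ((sig A K p : ℝ) * p) +
      ∑ p ∈ (T.filter (fun p => ¬ p ≤ w)).filter (fun p => ¬ (4 * K.factorial * sig A K p) ^ 40 ≤ 2 ^ L),
        1 / ((sig A K p : ℝ) * p)) := by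
    rw [Finset.sum_filter_add_sum_filter_not, Finset.sum_filter_add_sum_filter_not]
  have t1 : ∑ p ∈ T.filter (fun p => p ≤ w), 1 / ((sig A K p : ℝ) * p) ≤ 8 * R := by
    have h1 : ∑ p ∈ T.filter (fun p => p ≤ w), 1 / ((sig A K p : ℝ) * p) ≤
        ∑ p ∈ (Icc 1 w).filter Nat.Prime, 1 / (p : ℝ) := by
      calc ∑ p ∈ T.filter (fun p => p ≤ w), 1 / ((sig A K p : ℝ) * p)
          ≤ ∑ p ∈ T.filter (fun p => p ≤ w), 1 / (p : ℝ) := by
            apply Finset.sum_le_sum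
            intro p hp
            rw [mem_filter] at hp
            obtain ⟨hp1, hp2, hp3, hp4, hp5⟩ := hTm p hp.1
            have h3 : (0 : ℝ) < p := by exact_mod_cast hp1.pos
            have h4 : (1 : ℝ) ≤ sig A K p := by exact_mod_cast (sig_mem hp3).1
            apply one_div_le_one_div_of_le h3
            nlinarith
        _ ≤ ∑ p ∈ (Icc 1 w).filter Nat.Prime, 1 / (p : ℝ) := by
            apply Finset.sum_le_sum_of_subset_of_nonneg
            · intro p hp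
              rw [mem_filter] at hp
              obtain ⟨hp1, hp2, hp3, hp4, hp5⟩ := hTm p hp.1
              rw [mem_filter, mem_Icc]
              exact ⟨⟨hp5, hp.2⟩, hp1⟩
            · intro p _ _
              positivity
    have h2 := sum_inv_prime_le (L - 2)
    have h3 : ((L - 2 : ℕ) : ℝ) ≤ L := by exact_mod_cast Nat.sub_le L 2
    linarith
  have t3 : ∑ p ∈ (T.filter (fun p => ¬ p ≤ w)).filter
      (fun p => ¬ (4 * K.factorial * sig A K p) ^ 40 ≤ 2 ^ L), 1 / ((sig A K p : ℝ) * p) ≤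
        8 * K.factorial * R := by
    have h1 : ∑ p ∈ (T.filter (fun p => ¬ p ≤ w)).filter
        (fun p => ¬ (4 * K.factorial * sig A K p) ^ 40 ≤ 2 ^ L), 1 / ((sig A K p : ℝ) * p) ≤
        ∑ p ∈ (Icc 1 (2 ^ (2 ^ (2 ^ (L - 2))))).filter Nat.Prime,
          (4 * K.factorial / y) * (1 / (p : ℝ)) := by
      calc ∑ p ∈ (T.filter (fun p => ¬ p ≤ w)).filter
              (fun p => ¬ (4 * K.factorial * sig A K p) ^ 40 ≤ 2 ^ L), 1 / ((sig A K p : ℝ) * p)
            ≤ ∑ p ∈ (T.filter (fun p => ¬ p ≤ w)).filter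
              (fun p => ¬ (4 * K.factorial * sig A K p) ^ 40 ≤ 2 ^ L),
                (4 * K.factorial / y) * (1 / (p : ℝ)) := by
            apply Finset.sum_le_sum
            intro p hp
            rw [mem_filter, mem_filter] at hp
            obtain ⟨hp1, hp2, hp3, hp4, hp5⟩ := hTm p hp.1.1
            have h3 : (0 : ℝ) < p := by exact_mod_cast hp1.pos
            have h4 : (1 : ℝ) ≤ sig A K p := by exact_mod_cast (sig_mem hp3).1
            have h5 : y ≤ 4 * K.factorial * sig A K p := by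
              by_contra hc
              push Not at hc
              apply hp.2
              have h6 : ((4 * K.factorial * sig A K p : ℕ) : ℝ) ^ 40 ≤ (2 : ℝ) ^ L := by
                rw [← hy]
                apply pow_le_pow_left₀ (by positivity)
                push_cast
                exact hc.le
              exact_mod_cast h6
            rw [div_mul_div_comm, mul_one, div_le_div_iff₀ (by positivity) (by positivity)]
            have h7 := mul_le_mul_of_nonneg_right h5 h3.le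
            nlinarith
        _ ≤ _ := by
            apply Finset.sum_le_sum_of_subset_of_nonneg
            · intro p hp
              rw [mem_filter, mem_filter] at hp
              obtain ⟨hp1, hp2, hp3, hp4, hp5⟩ := hTm p hp.1.1
              rw [mem_filter, mem_Icc]
              exact ⟨⟨hp5, hp4⟩, hp1⟩
            · intro p _ _
              positivity
    rw [← Finset.mul_sum] at h1
    have h2 := sum_inv_prime_le (2 ^ (L - 2))
    have h3 : (4 : ℝ) * ((2 ^ (L - 2) : ℕ) : ℝ) = 2 ^ L := by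
      obtain ⟨k, rfl⟩ := Nat.exists_eq_add_of_le hL
      rw [Nat.add_sub_cancel_left, pow_add]
      push_cast
      norm_num
    rw [h3] at h2
    have h4 : (1 : ℝ) ≤ 2 ^ L := one_le_pow₀ (by norm_num)
    calc _ ≤ _ := h1
      _ ≤ (4 * K.factorial / y) * (2 * (y * R)) := by
          apply mul_le_mul_of_nonneg_left _ (by positivity)
          rw [hyR2]
          linarith
      _ = 8 * K.factorial * R := by
          field_simp
          ring
  have t2 : ∑ p ∈ (T.filter (fun p => ¬ p ≤ w)).filter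
      (fun p => (4 * K.factorial * sig A K p) ^ 40 ≤ 2 ^ L), 1 / ((sig A K p : ℝ) * p) ≤ 2 * R := by
    set U := (T.filter (fun p => ¬ p ≤ w)).filter
      (fun p => (4 * K.factorial * sig A K p) ^ 40 ≤ 2 ^ L) with hU
    have hmaps : ∀ p ∈ U, sig A K p ∈ Icc 1 ⌊y⌋₊ := by
      intro p hp
      rw [hU, mem_filter, mem_filter] at hp
      obtain ⟨hp1, hp2, hp3, hp4, hp5⟩ := hTm p hp.1.1
      rw [mem_Icc]
      refine ⟨(sig_mem hp3).1, Nat.le_floor ?_⟩
      have h6 : ((4 * K.factorial * sig A K p : ℕ) : ℝ) ^ 40 ≤ y ^ 40 := by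
        rw [hy]
        exact_mod_cast hp.2
      have h7 := le_of_pow_le_pow_left₀ (by norm_num) hy0.le h6
      push_cast at h7
      have h8 : (0 : ℝ) ≤ sig A K p := by positivity
      nlinarith
    rw [← Finset.sum_fiberwise_of_maps_to hmaps]
    have h2 : ∀ s ∈ Icc 1 ⌊y⌋₊, ∑ p ∈ U.filter (fun p => sig A K p = s),
        1 / ((sig A K p : ℝ) * p) ≤ 2 := by
      intro s hs
      rw [mem_Icc] at hs
      rcases (U.filter (fun p => sig A K p = s)).eq_empty_or_nonempty with hE | ⟨q, hq⟩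
      · rw [hE]
        norm_num
      · have hq' := hq
        rw [mem_filter, hU, mem_filter, mem_filter] at hq'
        obtain ⟨hp1, hp2, hp3, hp4, hp5⟩ := hTm q hq'.1.1.1
        have hm := sig_mem hp3
        have hc := hfew s hs.1 (hq'.2 ▸ hm.2.1) (hq'.2 ▸ hq'.1.2)
          (U.filter (fun p => sig A K p = s)) (by
            intro p hp
            rw [mem_filter, hU, mem_filter, mem_filter] at hp
            obtain ⟨hr1, hr2, hr3, hr4, hr5⟩ := hTm p hp.1.1.1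
            refine ⟨hp.2 ▸ mem_Cl hr1 hr2 hr3, ?_, hr4⟩
            have := hp.1.1.2
            omega)
        have h3 : ∀ p ∈ U.filter (fun p => sig A K p = s), 1 / ((sig A K p : ℝ) * p) ≤ 1 / (w : ℝ) := by
          intro p hp
          rw [mem_filter, hU, mem_filter, mem_filter] at hp
          obtain ⟨hr1, hr2, hr3, hr4, hr5⟩ := hTm p hp.1.1.1
          have h4 : (1 : ℝ) ≤ sig A K p := by exact_mod_cast (sig_mem hr3).1
          have h5 : (w : ℝ) ≤ p := by
            have := hp.1.1.2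
            exact_mod_cast (by omega : w ≤ p)
          apply one_div_le_one_div_of_le hw0
          nlinarith
        have h6 := Finset.sum_le_card_nsmul _ _ _ h3
        rw [nsmul_eq_mul] at h6
        refine h6.trans ?_
        have h7 : ((U.filter (fun p => sig A K p = s)).card : ℝ) ≤ 2 * w := by
          exact_mod_cast hc.le
        rw [mul_one_div, div_le_iff₀ hw0]
        exact h7
    refine (Finset.sum_le_card_nsmul _ _ _ h2).trans ?_
    rw [Nat.card_Icc, Nat.add_sub_cancel, nsmul_eq_mul]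
    have h8 : ((⌊y⌋₊ : ℕ) : ℝ) ≤ y := Nat.floor_le hy0.le
    linarith
  rw [hsplit]
  have hK0 : (0 : ℝ) ≤ 2 * K := by positivity
  have h9 : ∑ p ∈ T.filter (fun p => p ≤ w), 1 / ((sig A K p : ℝ) * p) +
      (∑ p ∈ (T.filter (fun p => ¬ p ≤ w)).filter (fun p => (4 * K.factorial * sig A K p) ^ 40 ≤ 2 ^ L),
        1 / ((sig A K p : ℝ) * p) +
      ∑ p ∈ (T.filter (fun p => ¬ p ≤ w)).filter (fun p => ¬ (4 * K.factorial * sig A K p) ^ 40 ≤ 2 ^ L),
        1 / ((sig A K p : ℝ) * p)) ≤ 18 * K.factorial * R := by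
    have h10 : R ≤ K.factorial * R := le_mul_of_one_le_left hR0.le hf1
    nlinarith
  calc _ ≤ 2 * (K : ℝ) * (18 * K.factorial * R) := mul_le_mul_of_nonneg_left h9 hK0
    _ = 2 * K * (18 * K.factorial) * R := by ring

lemma loglog_ge_one (x : ℕ) (hx : 16 ≤ x) : 1 ≤ Real.log (Real.log x) := by
  have h1 : Real.log 16 ≤ Real.log x := Real.log_le_log (by norm_num) (by exact_mod_cast hx)
  have h2 : Real.log 16 = 4 * Real.log 2 := by
    rw [show (16 : ℝ) = 2 ^ 4 by norm_num, Real.log_pow]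
    norm_num
  have h3 := Real.log_two_gt_d9
  have h4 := Real.exp_one_lt_d9
  rw [Real.le_log_iff_exp_le (by linarith)]
  linarith

lemma level_choice (Lm : ℕ) (hLm : 3 ≤ Lm) (x : ℕ) (hx : 16 ≤ x) :
    ∃ L, Lm ≤ L ∧ x ≤ 2 ^ (2 ^ (2 ^ (L - 2))) ∧
      (2 : ℝ) ^ L ≤ 2 ^ Lm * 32 * Real.log (Real.log x) := by
  have hll := loglog_ge_one x hx
  have hex : ∃ L, Lm ≤ L ∧ x ≤ 2 ^ (2 ^ (2 ^ (L - 2))) := by
    refine ⟨Lm + x, Nat.le_add_right _ _, ?_⟩
    have h1 : x ≤ Lm + x - 2 := by omega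
    have h2 : Lm + x - 2 ≤ 2 ^ (Lm + x - 2) := Nat.lt_two_pow_self.le
    have h3 : 2 ^ (Lm + x - 2) ≤ 2 ^ (2 ^ (Lm + x - 2)) := Nat.lt_two_pow_self.le
    have h4 : 2 ^ (2 ^ (Lm + x - 2)) ≤ 2 ^ (2 ^ (2 ^ (Lm + x - 2))) := Nat.lt_two_pow_self.le
    exact h1.trans (h2.trans (h3.trans h4))
  classical
  have hs := Nat.find_spec hex
  set L := Nat.find hex with hLdef
  refine ⟨L, hs.1, hs.2, ?_⟩
  have hp1 : (1 : ℝ) ≤ 2 ^ Lm := one_le_pow₀ (by norm_num)
  rcases Nat.eq_or_lt_of_le hs.1 with he | hlt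
  · rw [← he]
    nlinarith
  · have hmin := Nat.find_min hex (m := L - 1) (by omega)
    have h1 : 2 ^ (2 ^ (2 ^ (L - 1 - 2))) < x := by
      by_contra hc
      exact hmin ⟨by omega, by omega⟩
    obtain ⟨M, hM⟩ : ∃ M, L = M + 4 := ⟨L - 4, by omega⟩
    have h2 : L - 1 - 2 = M + 1 := by omega
    rw [h2] at h1
    have hl2 : (1 : ℝ) / 2 ≤ Real.log 2 := by
      have := Real.log_two_gt_d9
      linarith
    have hl20 : 0 < Real.log 2 := by linarith
    have h3 : (2 : ℝ) ^ (2 ^ (M + 1)) * Real.log 2 ≤ Real.log x := by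
      have h4 : Real.log (((2 : ℕ) ^ (2 ^ (2 ^ (M + 1))) : ℕ) : ℝ) ≤ Real.log x :=
        Real.log_le_log (by positivity) (by exact_mod_cast h1.le)
      push_cast at h4
      rw [Real.log_pow] at h4
      push_cast at h4
      exact h4
    have h5 : (2 : ℝ) ^ (2 ^ (M + 1)) / 2 ≤ Real.log x := by
      have h6 : (0 : ℝ) < 2 ^ (2 ^ (M + 1)) := by positivity
      nlinarith
    have h7 : ((2 : ℝ) ^ (M + 1) - 1) * Real.log 2 ≤ Real.log (Real.log x) := by
      have h8 : Real.log ((2 : ℝ) ^ (2 ^ (M + 1)) / 2) ≤ Real.log (Real.log x) :=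
        Real.log_le_log (by positivity) h5
      rw [Real.log_div (by positivity) (by norm_num), Real.log_pow] at h8
      push_cast at h8
      linarith
    have h9 : (1 : ℝ) ≤ 2 ^ M := one_le_pow₀ (by norm_num)
    have h10 : (2 : ℝ) ^ (M + 1) = 2 * 2 ^ M := by rw [pow_succ]; ring
    have h11 : (2 : ℝ) ^ L = 16 * 2 ^ M := by
      rw [hM, pow_add]
      norm_num
      ring
    rw [h10] at h7
    rw [h11]
    have h12 : (2 : ℝ) ^ M * (1 / 2) ≤ Real.log (Real.log x) := by nlinarith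
    nlinarith

open Classical in
/-- E2. For each prime `p > K` at most `2 * K` members `s * p` of `Lin` (special ones: `s ≤ K`;
the others: `hmult`), each at least `s(p) * p`, where `s(p)` is the least `s` with `s * p ∈ A`; then
`p ∈ Cl A K (s(p))`. Let `z L = 2 ^ (2 ^ (2 ^ (L - 2)))` be the first one that is `≥ x`: the primes
`p ≤ 2 ^ (2 ^ (L - 2))` contribute `O(L)` (Mertens), the larger ones with
`(4 * K! * s(p)) ^ 40 ≤ 2 ^ L` at most `2` for each `s`, the others have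
`1 / s(p) ≤ 4 * K! * 2 ^ (- L / 40)`, and the sum of all `1 / p`, `p ≤ z L`, is `≤ 2 ^ L + 1`.
Total `≤ C * 2 ^ (L (1 - 1 / 40))`, and `2 ^ L` is comparable to `log log x`. -/
theorem lin_bound (A : Set ℕ) (K : ℕ) (hK : 2 ≤ K) (h0 : ∀ n ∈ A, 0 < n)
    (hmult : ∀ p : ℕ, p.Prime → K < p → ∀ S : Finset ℕ,
      (∀ n ∈ S, n ∈ A ∧ p ∣ n ∧ ¬ Sp K n) → S.card ≤ K)
    (L₀ : ℕ)
    (hfew : ∀ l ≥ L₀, ∀ s : ℕ, 0 < s → Sm K s → (4 * K.factorial * s) ^ 40 ≤ 2 ^ l →
      ∀ P : Finset ℕ, (∀ p ∈ P, p ∈ Cl A K s ∧ 2 ^ (2 ^ (l - 2)) < p ∧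
        p ≤ 2 ^ (2 ^ (2 ^ (l - 2)))) → P.card < 2 * 2 ^ (2 ^ (l - 2))) :
    ∃ C ε : ℝ, 0 < C ∧ 0 < ε ∧ ε < 1 ∧ ∀ x : ℕ, 16 ≤ x →
      ∑ n ∈ (Icc 1 x).filter (fun n => n ∈ Lin A K), 1 / (n : ℝ) ≤
        C * (Real.log (Real.log x)) ^ (1 - ε) := by
  set Lm : ℕ := max L₀ 3 with hLmdef
  have hLm0 : L₀ ≤ Lm := le_max_left _ _
  have hLm3 : 3 ≤ Lm := le_max_right _ _
  have hK0 : (0 : ℝ) < K := by exact_mod_cast (by omega : 0 < K)
  have hf0 : (0 : ℝ) < K.factorial := by exact_mod_cast Nat.factorial_pos K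
  have hC2 : (1 : ℝ) ≤ 2 ^ Lm * 32 := by
    have : (1 : ℝ) ≤ 2 ^ Lm := one_le_pow₀ (by norm_num)
    linarith
  refine ⟨2 * K * (18 * K.factorial) * (2 ^ Lm * 32), 1 / 40, by positivity, by norm_num,
    by norm_num, fun x hx => ?_⟩
  obtain ⟨L, hL1, hL2, hL3⟩ := level_choice Lm hLm3 x hx
  have hll := loglog_ge_one x hx
  have hp1 : (1 : ℝ) ≤ (2 : ℝ) ^ L := one_le_pow₀ (by norm_num)
  have hp0 : (0 : ℝ) < (2 : ℝ) ^ L := by linarith
  have hy1 : (1 : ℝ) ≤ ((2 : ℝ) ^ L) ^ (1 / 40 : ℝ) := Real.one_le_rpow hp1 (by norm_num)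
  have hyR : ((2 : ℝ) ^ L) ^ (1 / 40 : ℝ) ≤ ((2 : ℝ) ^ L) ^ (39 / 40 : ℝ) :=
    Real.rpow_le_rpow_of_exponent_le hp1 (by norm_num)
  have hy : (((2 : ℝ) ^ L) ^ (1 / 40 : ℝ)) ^ 40 = 2 ^ L := by
    rw [← Real.rpow_natCast (((2 : ℝ) ^ L) ^ (1 / 40 : ℝ)) 40, ← Real.rpow_mul hp0.le]
    norm_num
  have hyR2 : ((2 : ℝ) ^ L) ^ (1 / 40 : ℝ) * ((2 : ℝ) ^ L) ^ (39 / 40 : ℝ) = 2 ^ L := by
    rw [← Real.rpow_add hp0]
    norm_num
  have hLR : 1 + (L : ℝ) / 2 ≤ ((2 : ℝ) ^ L) ^ (39 / 40 : ℝ) := by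
    rw [Real.rpow_def_of_pos hp0, Real.log_pow]
    have h1 := Real.add_one_le_exp (L * Real.log 2 * (39 / 40))
    have h2 := Real.log_two_gt_d9
    have h3 : (0 : ℝ) ≤ L := Nat.cast_nonneg L
    nlinarith
  have h1 := level_bound A K h0 hmult L (by omega) (hfew L (hLm0.trans hL1)) _ _ hy1 hyR hy hyR2 hLR
  have h2 : ∑ n ∈ (Icc 1 x).filter (fun n => n ∈ Lin A K), 1 / (n : ℝ) ≤
      ∑ n ∈ (Icc 1 (2 ^ (2 ^ (2 ^ (L - 2))))).filter (fun n => n ∈ Lin A K), 1 / (n : ℝ) := by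
    apply Finset.sum_le_sum_of_subset_of_nonneg
    · intro n hn
      rw [mem_filter, mem_Icc] at hn ⊢
      exact ⟨⟨hn.1.1, hn.1.2.trans hL2⟩, hn.2⟩
    · intro n _ _
      positivity
  have h3 : ((2 : ℝ) ^ L) ^ (39 / 40 : ℝ) ≤
      (2 ^ Lm * 32) * (Real.log (Real.log x)) ^ (39 / 40 : ℝ) := by
    calc ((2 : ℝ) ^ L) ^ (39 / 40 : ℝ) ≤ (2 ^ Lm * 32 * Real.log (Real.log x)) ^ (39 / 40 : ℝ) :=
          Real.rpow_le_rpow hp0.le hL3 (by norm_num)
      _ = (2 ^ Lm * 32) ^ (39 / 40 : ℝ) * (Real.log (Real.log x)) ^ (39 / 40 : ℝ) :=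
          Real.mul_rpow (by positivity) (by linarith)
      _ ≤ (2 ^ Lm * 32) * (Real.log (Real.log x)) ^ (39 / 40 : ℝ) := by
          apply mul_le_mul_of_nonneg_right _ (by positivity)
          calc ((2 : ℝ) ^ Lm * 32) ^ (39 / 40 : ℝ) ≤ ((2 : ℝ) ^ Lm * 32) ^ (1 : ℝ) :=
                Real.rpow_le_rpow_of_exponent_le hC2 (by norm_num)
            _ = _ := Real.rpow_one _
  rw [show (1 - 1 / 40 : ℝ) = 39 / 40 by norm_num]
  calc _ ≤ _ := h2.trans h1
    _ ≤ 2 * K * (18 * K.factorial) * ((2 ^ Lm * 32) * (Real.log (Real.log x)) ^ (39 / 40 : ℝ)) :=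
        mul_le_mul_of_nonneg_left h3 (by positivity)
    _ = _ := by ring

end Pool.Agent.Helper51.PS
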