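import Pool.Agent.Helper9.RS.Final
import Pool.Agent.Helper37.PSE.Lin
import Pool.Agent.Helper51.PS.Core
import Pool.Agent.Helper51.PS.E1
import Pool.Agent.Helper51.BP.DynFib
import Pool.Agent.Helper51.BP.Final

/-!
# MP_175197_nt, project PS: the theorem
-/

set_option autoImplicit false

open Finset Real

namespace Pool.Agent.Helper51.PS

open Pool.Agent.Helper9.PF
open Pool.Agent.Helper51.BP (sg th_sg dynFib phi_ge)
open Pool.Agent.Helper51.BR (Sp)

/-- reciprocal as a monoid hom -/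
noncomputable def recHom : ℕ →* ℝ where
  toFun n := ((n : ℝ))⁻¹
  map_one' := by simp
  map_mul' m n := by
    push_cast
    rw [mul_inv]

/-- the reciprocals of the numbers composed of primes `≤ K` -/
theorem smooth_bound (K : ℕ) : ∃ C : ℝ, 0 ≤ C ∧ ∀ S : Finset ℕ, (∀ n ∈ S, 0 < n ∧ Sm K n) →
    ∑ n ∈ S, 1 / (n : ℝ) ≤ C := by
  have h := (EulerProduct.summable_and_hasSum_smoothNumbers_prod_primesBelow_geometric
    (f := recHom) (by
      intro p hp
      show ‖((p : ℝ))⁻¹‖ < 1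
      rw [norm_inv, Real.norm_natCast]
      exact inv_lt_one_of_one_lt₀ (by exact_mod_cast hp.one_lt)) (K + 1)).2
  refine ⟨_, h.nonneg (fun m => by
      show 0 ≤ (((m : ℕ) : ℝ))⁻¹
      positivity), fun S hS => ?_⟩
  have hmem : ∀ n ∈ S, n ∈ (K + 1).smoothNumbers := by
    intro n hn
    rw [Nat.smoothNumbers, Set.mem_setOf_eq]
    refine ⟨(hS n hn).1.ne', fun p hp => ?_⟩
    have h1 := (Nat.mem_primeFactorsList (hS n hn).1.ne').1 hp
    have := (hS n hn).2 p h1.1 h1.2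
    omega
  have h2 := sum_le_hasSum (S.subtype (· ∈ (K + 1).smoothNumbers))
    (fun m _ => by
      show 0 ≤ (((m : ℕ) : ℝ))⁻¹
      positivity) h
  rw [Finset.sum_subtype_of_mem (fun n => recHom n) hmem] at h2
  refine le_trans (le_of_eq ?_) h2
  refine Finset.sum_congr rfl fun n _ => ?_
  show 1 / (n : ℝ) = ((n : ℝ))⁻¹
  rw [one_div]

private lemma loglog_ge {x : ℕ} (hx : 16 ≤ x) : 1 ≤ Real.log (Real.log x) := by
  have h1 : Real.log 16 = 4 * Real.log 2 := by
    rw [show (16 : ℝ) = 2 ^ 4 by norm_num, Real.log_pow]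
    norm_num
  have h2 : Real.exp 1 ≤ Real.log x := by
    have h3 : Real.log 16 ≤ Real.log x :=
      Real.log_le_log (by norm_num) (by exact_mod_cast hx)
    have h4 := Real.log_two_gt_d9
    have h5 := Real.exp_one_lt_d9
    linarith
  have h6 : 0 < Real.log x := lt_of_lt_of_le (Real.exp_pos 1) h2
  rw [Real.le_log_iff_exp_le h6]
  exact h2

/-- If every prime `p > K` divides at most `K` of those terms of the sequence of positive integers
`n₀ < n₁ < ...` which are not of the form `s * m`, `s ≤ K`, `m` a prime power, then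
`∑ 1 / F_{n_k}` is irrational. -/
theorem irrational_seq (n : ℕ → ℕ) (hn : StrictMono n) (hpos : ∀ k, 0 < n k) (K : ℕ)
    (hK2 : 2 ≤ K)
    (hmult : ∀ p : ℕ, p.Prime → K < p → ∀ S : Finset ℕ,
      (∀ m ∈ S, m ∈ Set.range n ∧ p ∣ m ∧ ¬ Sp K m) → S.card ≤ K) :
    Irrational (∑' k, 1 / (Nat.fib (n k) : ℝ)) := by
  classical
  by_contra hirr
  obtain ⟨A, hA⟩ : ∃ A : Set ℕ, A = Set.range n := ⟨_, rfl⟩
  rw [← hA] at hmult
  have hinj : Function.Injective n := hn.injective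
  have h0 : ∀ m ∈ A, 0 < m := by
    intro m hm
    rw [hA] at hm
    obtain ⟨k, rfl⟩ := hm
    exact hpos k
  have h2 : ∑' m, (if m ∈ A then 1 / (Nat.fib m : ℝ) else 0) = ∑' k, 1 / (Nat.fib (n k) : ℝ) := by
    rw [← hinj.tsum_eq]
    · apply tsum_congr
      intro k
      rw [if_pos]
      rw [hA]
      exact Set.mem_range_self k
    · intro m hm
      rw [Function.mem_support] at hm
      by_contra hcon
      rw [if_neg] at hm
      · exact hm rfl
      · rw [hA]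
        exact hcon
  have hgood : Good A K := ⟨hK2, h0, hmult⟩
  obtain ⟨K₀, hK₀⟩ := dynFib A h0 (by rw [h2]; exact hirr)
  obtain ⟨L₀, hL₀⟩ := core A hgood sg sg th_sg (fun p => (th_sg.one p).le) Real.goldenRatio phi_ge
    K₀ hK₀
  have hfew : ∀ l ≥ L₀, ∀ s : ℕ, 0 < s → Sm K s → (4 * K.factorial * s) ^ 40 ≤ 2 ^ l →
      ∀ P : Finset ℕ, (∀ p ∈ P, p ∈ Cl A K s ∧ 2 ^ (2 ^ (l - 2)) < p ∧
        p ≤ 2 ^ (2 ^ (2 ^ (l - 2)))) → P.card < 2 * 2 ^ (2 ^ (l - 2)) := by
    intro l hl s hs hsm hsl P hP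
    by_contra hcon
    push Not at hcon
    have h3 := Finset.card_filter_add_card_filter_not (s := P) (fun p => sg (s * p) = 1)
    have h4 : 2 ^ (2 ^ (l - 2)) ≤ (P.filter fun p => sg (s * p) = 1).card ∨
        2 ^ (2 ^ (l - 2)) ≤ (P.filter fun p => ¬ sg (s * p) = 1).card := by omega
    rcases h4 with h4 | h4
    · obtain ⟨P', hP1, hP2⟩ := Finset.exists_subset_card_eq h4
      refine hL₀ l hl s hs hsm hsl 1 (by norm_num) P' hP2 fun q hq => ?_
      have h5 := hP1 hq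
      rw [mem_filter] at h5
      obtain ⟨⟨h6, h7, h8, h9⟩, h10, h11⟩ := hP q h5.1
      exact ⟨⟨h6, h7, h8, h9, h5.2⟩, h10, h11⟩
    · obtain ⟨P', hP1, hP2⟩ := Finset.exists_subset_card_eq h4
      refine hL₀ l hl s hs hsm hsl (-1) (by norm_num) P' hP2 fun q hq => ?_
      have h5 := hP1 hq
      rw [mem_filter] at h5
      obtain ⟨⟨h6, h7, h8, h9⟩, h10, h11⟩ := hP q h5.1
      refine ⟨⟨h6, h7, h8, h9, ?_⟩, h10, h11⟩
      have h12 := h5.2
      unfold sg at h12 ⊢
      split_ifs at h12 ⊢ with h13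
      · rfl
      · exact absurd rfl h12
  obtain ⟨C, ε, hC, hε, hε1, hlin⟩ :=
    Pool.Agent.Helper37.PSE.lin_bound A K hK2 h0 hmult L₀ hfew
  have hoth := oth_summable A K hK2 h0 hmult
  obtain ⟨C₁, hC₁⟩ : ∃ C₁, C₁ = ∑' m : ℕ, if m ∈ Oth A K then 1 / (m : ℝ) else 0 := ⟨_, rfl⟩
  have hnn : ∀ (c : Prop) (_ : Decidable c) (p : ℕ), (0:ℝ) ≤ if c then 1 / (p : ℝ) else 0 := by
    intro c _ p
    split_ifs
    · positivity
    · exact le_rfl
  have hC₁0 : 0 ≤ C₁ := by
    rw [hC₁]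
    exact tsum_nonneg fun m => hnn _ _ m
  obtain ⟨C₂, hC₂0, hC₂⟩ := smooth_bound K
  apply hirr
  refine Pool.Agent.Helper9.RS.irrational_of_log_log n hn hpos (C + C₁ + C₂) ε hε fun x hx => ?_
  have hlog := loglog_ge hx
  have hpw : 1 ≤ (Real.log (Real.log x)) ^ (1 - ε) := Real.one_le_rpow hlog (by linarith)
  have e1 : ∑ k ∈ (Finset.range (x + 1)).filter (fun k => n k ≤ x), 1 / (n k : ℝ) ≤
      ∑ m ∈ (Icc 1 x).filter (fun m => m ∈ A), 1 / (m : ℝ) := by
    rw [← Finset.sum_image (s := (Finset.range (x + 1)).filter (fun k => n k ≤ x)) (g := n)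
      (f := fun m : ℕ => 1 / (m : ℝ)) (fun a _ b _ h => hinj h)]
    refine Finset.sum_le_sum_of_subset_of_nonneg ?_ fun m _ _ => by positivity
    intro m hm
    obtain ⟨k, hk, rfl⟩ := mem_image.1 hm
    rw [mem_filter] at hk
    rw [mem_filter, mem_Icc, hA]
    exact ⟨⟨hpos k, hk.2⟩, Set.mem_range_self k⟩
  have e2 : ∑ m ∈ (Icc 1 x).filter (fun m => m ∈ A), 1 / (m : ℝ) ≤
      ∑ m ∈ (Icc 1 x).filter (fun m => m ∈ Lin A K), 1 / (m : ℝ) +
      ∑ m ∈ (Icc 1 x).filter (fun m => m ∈ Oth A K), 1 / (m : ℝ) +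
      ∑ m ∈ (Icc 1 x).filter (fun m => Sm K m), 1 / (m : ℝ) := by
    rw [Finset.sum_filter, Finset.sum_filter, Finset.sum_filter, Finset.sum_filter,
      ← Finset.sum_add_distrib, ← Finset.sum_add_distrib]
    refine Finset.sum_le_sum fun m _ => ?_
    have a1 := hnn (m ∈ Lin A K) inferInstance m
    have a2 := hnn (m ∈ Oth A K) inferInstance m
    have a3 := hnn (Sm K m) inferInstance m
    by_cases hm : m ∈ A
    · rw [if_pos hm]
      by_cases hsm : Sm K m
      · rw [if_pos hsm]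
        linarith
      · by_cases hl : m ∈ Lin A K
        · rw [if_pos hl]
          linarith
        · have ho : m ∈ Oth A K := by
            refine ⟨hm, hl, ?_⟩
            unfold Sm at hsm
            push Not at hsm
            obtain ⟨r, hr, hrm, hKr⟩ := hsm
            exact ⟨r, hr, hrm, hKr⟩
          rw [if_pos ho]
          linarith
    · rw [if_neg hm]
      linarith
  have e3 := hlin x hx
  have e4 : ∑ m ∈ (Icc 1 x).filter (fun m => m ∈ Oth A K), 1 / (m : ℝ) ≤ C₁ := by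
    rw [Finset.sum_filter, hC₁]
    exact hoth.sum_le_tsum _ (fun m _ => hnn _ _ m)
  have e5 : ∑ m ∈ (Icc 1 x).filter (fun m => Sm K m), 1 / (m : ℝ) ≤ C₂ := by
    refine hC₂ _ fun m hm => ?_
    rw [mem_filter, mem_Icc] at hm
    exact ⟨hm.1.1, hm.2⟩
  have e6 : C₁ ≤ C₁ * (Real.log (Real.log x)) ^ (1 - ε) := le_mul_of_one_le_right hC₁0 hpw
  have e7 : C₂ ≤ C₂ * (Real.log (Real.log x)) ^ (1 - ε) := le_mul_of_one_le_right hC₂0 hpw
  calc _ ≤ C * (Real.log (Real.log x)) ^ (1 - ε) + C₁ + C₂ := by linarith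
    _ ≤ (C + C₁ + C₂) * (Real.log (Real.log x)) ^ (1 - ε) := by
        rw [add_mul, add_mul]
        linarith

end Pool.Agent.Helper51.PS
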